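import Mathlib
import Pool.Agent.Helper11.Cube
import Pool.Agent.Helper11.Markov
import Pool.Agent.Helper11.Degree
import Pool.Agent.Helper11.AAQuantities
import Pool.Agent.Helper11.AADefs
import Pool.Agent.Helper11.DTree
import Pool.Agent.Helper11.OSSS

/-!
Functions on the cube whose discrete derivatives take few large values: definitions.
-/

set_option linter.dupNamespace false

namespace Pool.Agent.Helper24.FewDer

open Finset Pool.Agent.Helper11.Cube Pool.Agent.Helper11.AA

/-- `HasDTE D F`: `F` (with values in any type) is computed by a decision tree of depth `≤ D`. -/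
inductive HasDTE {n : ℕ} {E : Type} : ℕ → (Cube n → E) → Prop
  | const (D : ℕ) (a : E) (F : Cube n → E) (h : ∀ x, F x = a) : HasDTE D F
  | node (D : ℕ) (i : Fin n) (F F1 F2 : Cube n → E) (h1 : HasDTE D F1) (h2 : HasDTE D F2)
      (hF : ∀ x, F x = if x i = 1 then F1 x else F2 x)
      (i1 : ∀ x, F1 (flipOn {i} x) = F1 x) (i2 : ∀ x, F2 (flipOn {i} x) = F2 x) : HasDTE (D + 1) F

/-- block sensitivity at most `β` -/
def BSLe {n : ℕ} (h : Cube n → ℝ) (β : ℕ) : Prop :=
  ∀ y : Cube n, ∀ C : Finset (Finset (Fin n)),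
    (C : Set (Finset (Fin n))).PairwiseDisjoint id → (∀ A ∈ C, h (flipOn A y) ≠ h y) → C.card ≤ β

/-- degree of the threshold polynomial -/
noncomputable def rr (k : ℕ) : ℕ := 2 * (k + 1) ^ 2 * ⌈Real.log (4 * ((k : ℝ) + 1))⌉₊

end Pool.Agent.Helper24.FewDer
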