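import Pool.Agent.Helper24.FewDer.Scale2

set_option linter.dupNamespace false

namespace Pool.Agent.Helper24.FewDer

open Finset Pool.Agent.Helper11.Cube Pool.Agent.Helper11.AA

/-- decomposition of a square into scales with ratio `q` -/
lemma final2_dyadic {lam q : ℝ} (hlam : 0 < lam) (hq : 0 < q) {a : ℝ} (ha : 0 ≤ a) (S : ℕ) :
    a ≤ 2 * lam * q ^ S →
    a ^ 2 ≤ 2 * lam * a + ∑ s ∈ range S, q ^ 2 * (2 * lam * q ^ s) ^ 2 *
      (if 2 * lam * q ^ s < a then (1 : ℝ) else 0) := by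
  induction S with
  | zero =>
    intro h
    simp only [range_zero, sum_empty, add_zero]
    norm_num at h
    nlinarith
  | succ S ih =>
    intro h
    rw [sum_range_succ]
    by_cases h2 : a ≤ 2 * lam * q ^ S
    · have h3 := ih h2
      have h4 : (0 : ℝ) ≤ q ^ 2 * (2 * lam * q ^ S) ^ 2 *
        (if 2 * lam * q ^ S < a then (1 : ℝ) else 0) := by
        split_ifs <;> positivity
      linarith
    · rw [if_pos (not_le.1 h2), mul_one]
      have h4 : 0 ≤ ∑ s ∈ range S, q ^ 2 * (2 * lam * q ^ s) ^ 2 *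
          (if 2 * lam * q ^ s < a then (1 : ℝ) else 0) := by
        apply sum_nonneg
        intro s _
        split_ifs <;> positivity
      have h5 : a ^ 2 ≤ (2 * lam * q ^ (S + 1)) ^ 2 := pow_le_pow_left₀ ha h 2
      have h6 : (2 * lam * q ^ (S + 1)) ^ 2 = q ^ 2 * (2 * lam * q ^ S) ^ 2 := by ring
      have h7 : 0 ≤ 2 * lam * a := by positivity
      linarith

/-- summation of a sequence with `a (s+1) ≤ a s / 2 + c / 2^s` -/
lemma final2_sum {a : ℕ → ℝ} {c : ℝ} (hc : 0 ≤ c) (ha : ∀ s, 0 ≤ a s)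
    (h : ∀ s, a (s + 1) ≤ 1 / 2 * a s + c * (1 / 2 ^ s)) (S : ℕ) :
    ∑ s ∈ range S, a s ≤ 2 * a 0 + 4 * c := by
  have key : ∀ S : ℕ, ∑ s ∈ range S, a s + 2 * a S ≤ 2 * a 0 + 4 * c * (1 - 1 / 2 ^ S) := by
    intro S
    induction S with
    | zero => simp
    | succ S ih =>
      rw [sum_range_succ]
      have h1 := h S
      have h2 : 4 * c * (1 - 1 / 2 ^ (S + 1)) = 4 * c * (1 - 1 / 2 ^ S)
          + 2 * (c * (1 / 2 ^ S)) := by
        field_simp; ring
      rw [h2]
      linarith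
  have h1 := key S
  have h2 := ha S
  have h3 : (0 : ℝ) ≤ 1 / 2 ^ S := by positivity
  nlinarith

/-- **Main theorem**: separated levels of small block sensitivity. -/
theorem main2 {n d β : ℕ} (hβ1 : 1 ≤ β) {f : Cube n → ℝ} (hf : DegLE f d) (J : Finset (Fin n))
    {lam K : ℝ} (hM : maxDerivNorm f ≤ lam) (hK1 : 1 ≤ K)
    (hsep : ∀ j ∈ J, ∀ t : ℝ, lam ≤ t → Sep (discreteDeriv j f) K t β) :
    ∑ j ∈ J, derivNorm j f ^ 2 ≤ 2 ^ 9 * (K * β) ^ 4 * (d : ℝ) ^ 3 * supNorm f * lam := by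
  have hK0 : 0 ≤ supNorm f := supNorm_nonneg f
  have hM0 : 0 ≤ maxDerivNorm f := maxDerivNorm_nonneg f
  have hKpos : 0 < K := by linarith
  rcases (hM0.trans hM).eq_or_lt with h0 | hlam
  · have hz : ∀ j, derivNorm j f = 0 := by
      intro j
      apply le_antisymm _ (derivNorm_nonneg f j)
      exact (derivNorm_le f j).trans (hM.trans h0.symm.le)
    have : ∑ j ∈ J, derivNorm j f ^ 2 = 0 := by
      apply sum_eq_zero; intro j _; rw [hz j]; norm_num
    rw [this, ← h0]; simp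
  obtain ⟨S, hS⟩ : ∃ S : ℕ, supNorm f ≤ 2 * lam * (2 * K) ^ S := by
    obtain ⟨S, hS⟩ := pow_unbounded_of_one_lt (supNorm f / lam) (by linarith : (1 : ℝ) < 2 * K)
    refine ⟨S, ?_⟩
    rw [div_lt_iff₀ hlam] at hS
    have h1 : 0 < (2 * K) ^ S * lam := by positivity
    linarith
  have hD : ∀ j x, |discreteDeriv j f x| ≤ supNorm f := by
    intro j x
    unfold discreteDeriv
    have h1 := abs_le.1 (le_supNorm f (Function.update x j 1))
    have h2 := abs_le.1 (le_supNorm f (Function.update x j (-1)))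
    rw [abs_le]; constructor <;> linarith
  set B : ℝ := (β : ℝ) ^ 4 * (d : ℝ) ^ 3 * supNorm f with hB
  have hB0 : 0 ≤ B := by positivity
  set A : ℝ → ℝ := fun t => ∑ j ∈ J, ex (fun x => if t < |discreteDeriv j f x| then (1 : ℝ) else 0)
    with hA
  have hA0 : ∀ t, 0 ≤ A t := fun t => sum_nonneg fun j _ => ex_nonneg fun x => by
    split_ifs <;> norm_num
  set a : ℕ → ℝ := fun s => (2 * lam * (2 * K) ^ s) ^ 2 * A (2 * lam * (2 * K) ^ s) with ha
  have ha0 : ∀ s, 0 ≤ a s := fun s => mul_nonneg (by positivity) (hA0 _)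
  have hrec : ∀ s, a (s + 1) ≤ 1 / 2 * a s + ((128 / 9) * K ^ 2 * B * lam) * (1 / 2 ^ s) := by
    intro s
    have h4s : (1 : ℝ) ≤ (2 * K) ^ s := one_le_pow₀ (by linarith)
    have ht : 2 * lam ≤ 2 * lam * (2 * K) ^ s := by nlinarith
    have h1 := scale2 hβ1 hf J hlam hM ht hK1 (fun j hj => hsep j hj _ (by linarith))
    have e1 : 2 * K * (2 * lam * (2 * K) ^ s) = 2 * lam * (2 * K) ^ (s + 1) := by ring
    rw [e1] at h1
    have e2 : (256 / 9) * K ^ 2 * ((β : ℝ) ^ 4 * (d : ℝ) ^ 3 * supNorm f) * lam ^ 2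
        / (2 * lam * (2 * K) ^ s) = ((128 / 9) * K ^ 2 * B * lam) * (1 / (2 * K) ^ s) := by
      rw [hB]; field_simp; ring
    rw [e2] at h1
    have e3 : (1 : ℝ) / (2 * K) ^ s ≤ 1 / 2 ^ s :=
      one_div_le_one_div_of_le (by positivity) (pow_le_pow_left₀ (by norm_num) (by linarith) s)
    have e4 := mul_le_mul_of_nonneg_left e3
      (by positivity : 0 ≤ (128 / 9) * K ^ 2 * B * lam)
    exact h1.trans (by linarith)
  have hsum := final2_sum (by positivity) ha0 hrec S
  have hell1 : ∑ j ∈ J, ex (fun x => |discreteDeriv j f x|) ≤ 2 * (d : ℝ) ^ 2 * supNorm f := by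
    rw [← ex_sum]
    calc ex (fun x => ∑ j ∈ J, |discreteDeriv j f x|)
        ≤ ex (fun _ : Cube n => 2 * (d : ℝ) ^ 2 * supNorm f) := by
          apply ex_mono
          intro x
          exact (sum_le_sum_of_subset_of_nonneg (subset_univ _)
            (fun _ _ _ => abs_nonneg _)).trans (sum_abs_deriv_le hf (le_supNorm f) x)
      _ = _ := ex_const _
  have ha00 : a 0 ≤ 4 * ((d : ℝ) ^ 2 * supNorm f * lam) := by
    have h1 : 2 * lam * A (2 * lam) ≤ ∑ j ∈ J, ex (fun x => |discreteDeriv j f x|) := by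
      rw [hA, mul_sum]
      apply sum_le_sum
      intro j _
      rw [← ex_const_mul]
      apply ex_mono
      intro x
      split_ifs with hx
      · rw [mul_one]; exact hx.le
      · rw [mul_zero]; exact abs_nonneg _
    have h2 : a 0 = 2 * lam * (2 * lam * A (2 * lam)) := by
      rw [ha]; simp only [pow_zero, mul_one]; ring
    rw [h2]
    calc 2 * lam * (2 * lam * A (2 * lam)) ≤ 2 * lam * (2 * (d : ℝ) ^ 2 * supNorm f) :=
          mul_le_mul_of_nonneg_left (h1.trans hell1) (by positivity)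
      _ = _ := by ring
  have hone : ∀ j, derivNorm j f ^ 2 ≤ 2 * lam * ex (fun x => |discreteDeriv j f x|)
      + ∑ s ∈ range S, (2 * K) ^ 2 * (2 * lam * (2 * K) ^ s) ^ 2 *
        ex (fun x => if 2 * lam * (2 * K) ^ s < |discreteDeriv j f x| then (1 : ℝ) else 0) := by
    intro j
    rw [derivNorm_sq]
    have h1 : ex (fun x => discreteDeriv j f x ^ 2)
        ≤ ex (fun x => 2 * lam * |discreteDeriv j f x| + ∑ s ∈ range S,
          (2 * K) ^ 2 * (2 * lam * (2 * K) ^ s) ^ 2 *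
            (if 2 * lam * (2 * K) ^ s < |discreteDeriv j f x| then (1 : ℝ) else 0)) := by
      apply ex_mono
      intro x
      rw [← sq_abs (discreteDeriv j f x)]
      exact final2_dyadic hlam (by positivity) (abs_nonneg _) S ((hD j x).trans hS)
    rw [ex_add, ex_const_mul, ex_sum] at h1
    simp_rw [ex_const_mul] at h1
    exact h1
  have hd : (d : ℝ) ^ 2 ≤ (d : ℝ) ^ 3 := by
    rcases Nat.eq_zero_or_pos d with rfl | hd
    · simp
    · exact pow_le_pow_right₀ (by exact_mod_cast hd) (by norm_num)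
  have hβ4 : (1 : ℝ) ≤ (β : ℝ) ^ 4 := one_le_pow₀ (by exact_mod_cast hβ1)
  have hdB : (d : ℝ) ^ 2 * supNorm f ≤ B := by
    rw [hB]
    apply mul_le_mul_of_nonneg_right _ hK0
    have h4 : (0 : ℝ) ≤ (d : ℝ) ^ 3 := by positivity
    nlinarith
  have hdBl : (d : ℝ) ^ 2 * supNorm f * lam ≤ B * lam := mul_le_mul_of_nonneg_right hdB hlam.le
  have hBl : 0 ≤ B * lam := by positivity
  have hK2 : 1 ≤ K ^ 2 := one_le_pow₀ hK1
  have hK4 : K ^ 2 ≤ K ^ 4 := pow_le_pow_right₀ hK1 (by norm_num)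
  calc ∑ j ∈ J, derivNorm j f ^ 2
      ≤ ∑ j ∈ J, (2 * lam * ex (fun x => |discreteDeriv j f x|)
        + ∑ s ∈ range S, (2 * K) ^ 2 * (2 * lam * (2 * K) ^ s) ^ 2 *
        ex (fun x => if 2 * lam * (2 * K) ^ s < |discreteDeriv j f x| then (1 : ℝ) else 0)) :=
        sum_le_sum (fun j _ => hone j)
    _ = 2 * lam * ∑ j ∈ J, ex (fun x => |discreteDeriv j f x|)
        + (2 * K) ^ 2 * ∑ s ∈ range S, a s := by
        rw [sum_add_distrib, mul_sum, sum_comm, mul_sum]
        congr 1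
        apply sum_congr rfl
        intro s _
        rw [ha, hA, ← mul_sum]
        ring
    _ ≤ 2 * lam * (2 * (d : ℝ) ^ 2 * supNorm f)
        + (2 * K) ^ 2 * (2 * a 0 + 4 * ((128 / 9) * K ^ 2 * B * lam)) := by
        apply add_le_add
        · exact mul_le_mul_of_nonneg_left hell1 (by positivity)
        · exact mul_le_mul_of_nonneg_left hsum (by positivity)
    _ ≤ 4 * (B * lam) + (2 * K) ^ 2 * (8 * (B * lam) + 4 * ((128 / 9) * K ^ 2 * (B * lam))) := by
        apply add_le_add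
        · linarith
        · apply mul_le_mul_of_nonneg_left _ (by positivity)
          linarith
    _ = 4 * (B * lam) + 32 * (K ^ 2 * (B * lam)) + (2048 / 9) * (K ^ 4 * (B * lam)) := by ring
    _ ≤ 2 ^ 9 * (K ^ 4 * (B * lam)) := by
        have h5 : B * lam ≤ K ^ 4 * (B * lam) := by
          have : 1 ≤ K ^ 4 := hK2.trans hK4
          nlinarith
        have h6 : K ^ 2 * (B * lam) ≤ K ^ 4 * (B * lam) := mul_le_mul_of_nonneg_right hK4 hBl
        linarith
    _ = _ := by rw [hB]; ring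

end Pool.Agent.Helper24.FewDer
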