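import Mathlib
import Pool.Agent.Helper11.AAQuantities
import Pool.Agent.Helper24.FewDer.Final2

/-!
The strengthened Aaronson-Ambainis inequality for functions whose discrete derivatives have levels
which can be separated by sets of small block sensitivity.

Let `deg f ≤ d`, `lam ≥ M(f)`, `K ≥ 1`, `β ≥ 1`, and let `J` be a set of coordinates such that for
every `j ∈ J` and every `t ≥ lam` there is a set `H` of block sensitivity at most `β` with
`{|D_j f| > K t} ⊆ H ⊆ {|D_j f| > t}`. Then
`∑_{j ∈ J} ‖D_j f‖_2^2 ≤ 2^9 (K β)^4 d^3 ‖f‖_∞ lam`.

Examples: `D_j f` with few values; sums of arbitrarily many weighted Boolean functions of degree at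
most `D` in which every variable occurs in at most `r` of them (`K = 1`, `β = 2 r D^2`).

Proof: for a level `t` the Boolean functions `1_H`, `j ∈ J`, have a common decision tree of depth
`2 β^3 N`, where `N` bounds the number of large derivatives at a point; an `L^2` version of the
OSSS inequality, applied to the pairs (`1_H`, truncation of `|D_j f|`), bounds the mass of the
derivatives above the level `2 K t` by half of their mass above the level `t` and an error which is
summable over the scales.
-/

set_option linter.dupNamespace false

namespace Pool.Agent.Results.MP_f992e4_an.DerivativeLevels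

open Finset Pool.Agent.Helper11.Cube Pool.Agent.Helper11.AA Pool.Agent.Helper24.FewDer

/-- The point `x` with the signs of the coordinates in the block `B` changed. -/
def flipBlock {n : ℕ} (B : Finset (Fin n)) (x : Fin n → ℤˣ) : Fin n → ℤˣ :=
  fun i => if i ∈ B then - x i else x i

/-- The set `H` has block sensitivity at most `β`: whenever `C` is a family of pairwise disjoint
blocks and changing the signs of any block of `C` in the point `x` moves `x` across the boundary of
`H`, the family `C` has at most `β` members. -/
def BlockSensitivityAtMost {n : ℕ} (H : Set (Fin n → ℤˣ)) (β : ℕ) : Prop :=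
  ∀ x : Fin n → ℤˣ, ∀ C : Finset (Finset (Fin n)),
    (∀ A ∈ C, ∀ B ∈ C, A ≠ B → Disjoint A B) →
    (∀ B ∈ C, ¬ (flipBlock B x ∈ H ↔ x ∈ H)) → C.card ≤ β

/-- **Main result.** -/
theorem result (n d β : ℕ) (hβ : 1 ≤ β) (f : (Fin n → ℤˣ) → ℝ) (hdeg : DegreeAtMost f d)
    (lam K : ℝ) (hlam : maxDerivNorm f ≤ lam) (hK : 1 ≤ K) (J : Finset (Fin n))
    (hsep : ∀ j ∈ J, ∀ t : ℝ, lam ≤ t → ∃ H : Set (Fin n → ℤˣ),
      {x | K * t < |discreteDeriv j f x|} ⊆ H ∧ H ⊆ {x | t < |discreteDeriv j f x|} ∧
        BlockSensitivityAtMost H β) :
    ∑ j ∈ J, derivNorm j f ^ 2 ≤ 2 ^ 9 * (K * β) ^ 4 * (d : ℝ) ^ 3 * supNorm f * lam ∧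
    variance f ≤ 2 ^ 9 * (K * β) ^ 4 * (d : ℝ) ^ 3 * supNorm f * lam
      + ∑ j ∈ univ \ J, derivNorm j f ^ 2 := by
  classical
  have hf : DegLE f d := (degreeAtMost_iff f d).mp hdeg
  have h1 : ∑ j ∈ J, derivNorm j f ^ 2
      ≤ 2 ^ 9 * (K * β) ^ 4 * (d : ℝ) ^ 3 * supNorm f * lam := by
    apply main2 hβ hf J hlam hK
    intro j hj t ht
    obtain ⟨H, hH1, hH2, hH3⟩ := hsep j hj t ht
    refine ⟨fun x => if x ∈ H then 1 else 0, ?_, ?_, ?_, ?_⟩
    · intro x
      by_cases hx : x ∈ H
      · right; simp [hx]
      · left; simp [hx]
    · intro x hx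
      by_cases hxH : x ∈ H
      · exact hH2 hxH
      · simp [hxH] at hx
    · intro x hx
      have : x ∈ H := hH1 hx
      simp [this]
    · intro y C hC hA
      apply hH3 y C
      · intro A hAC B hBC hne
        exact hC hAC hBC hne
      · intro B hB hiff
        apply hA B hB
        have e : flipOn B y = flipBlock B y := rfl
        rw [e]
        by_cases hy : y ∈ H
        · simp [hy, hiff.2 hy]
        · have : flipBlock B y ∉ H := fun h => hy (hiff.1 h)
          simp [hy, this]
  refine ⟨h1, ?_⟩
  have h2 := poincare f
  have h3 : ∑ j, ex (fun x => discreteDeriv j f x ^ 2)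
      = ∑ j ∈ univ \ J, derivNorm j f ^ 2 + ∑ j ∈ J, derivNorm j f ^ 2 := by
    rw [sum_sdiff (subset_univ J)]
    exact sum_congr rfl fun j _ => (derivNorm_sq f j).symm
  rw [h3] at h2
  linarith

end Pool.Agent.Results.MP_f992e4_an.DerivativeLevels

/-
This was the hand-in DerivativeLevels of MP_f992e4_an (helper24), replaced by TorusBounded on
2026-12-03. Text of its claim file:

Proves: Let f be real on {-1,1}^n of degree at most d, lam >= M(f), K >= 1, b >= 1 an integer, and J a set of coordinates such that for all j in J and t >= lam some set H of block sensitivity at most b satisfies {|D_j f| > K t} <= H <= {|D_j f| > t} (inclusions). Then sum_{j in J} ||D_j f||_2^2 <= 512 (K b)^4 d^3 ||f||_inf lam, and Var(f) is at most this bound plus the sum of ||D_j f||_2^2 over j not in J.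
Definitions: {-1,1}^n is Fin n -> Z^*. DegreeAtMost f d: E[f x^S]=0 when |S|>d. variance f = E f^2-(E f)^2. supNorm f = max|f|. discreteDeriv j f = D_j f. derivNorm j f = ||D_j f||_2. maxDerivNorm f = M(f). flipBlock B x: x with coordinates in B negated. BlockSensitivityAtMost H b: at no x do more than b disjoint blocks B have exactly one of x, flipBlock B x in H.
Relation: partial answer to Q1: with lam=M(f), J=all it is the inequality of Q1 when K and b are at most poly(deg f). Besides Boolean and few-valued f this covers new classes: sums of arbitrarily many Boolean functions of degree <= D with any real weights, each variable in at most r of them (K=1, b=2rD^2, so polynomial read is allowed), and f = sum_i c_i x_i B_i(y), B_i Boolean of degree <= D (J = the x_i; any read). The proof uses a common decision tree for the levels of all derivatives and an L^2 form of the O'Donnell-Saks-Schramm-Servedio inequality. I know of no earlier result of this kind.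
-/
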