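import Pool.Agent.Helper24.FewDer.Scale

set_option linter.dupNamespace false

namespace Pool.Agent.Helper24.FewDer

open Finset Pool.Agent.Helper11.Cube Pool.Agent.Helper11.AA

/-- dyadic decomposition of a square -/
lemma final_dyadic {lam : ℝ} (hlam : 0 < lam) {a : ℝ} (ha : 0 ≤ a) (S : ℕ) :
    a ≤ 2 ^ (S + 2) * lam →
    a ^ 2 ≤ 4 * lam * a + ∑ s ∈ range S, 16 * (2 ^ (s + 1) * lam) ^ 2 *
      (if 2 * (2 ^ (s + 1) * lam) < a then (1 : ℝ) else 0) := by
  induction S with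
  | zero =>
    intro h
    simp only [range_zero, sum_empty, add_zero]
    norm_num at h
    nlinarith
  | succ S ih =>
    intro h
    rw [sum_range_succ]
    by_cases h2 : a ≤ 2 ^ (S + 2) * lam
    · have h3 := ih h2
      have h4 : (0 : ℝ) ≤ 16 * (2 ^ (S + 1) * lam) ^ 2 *
        (if 2 * (2 ^ (S + 1) * lam) < a then (1 : ℝ) else 0) := by
        split_ifs <;> positivity
      linarith
    · push Not at h2
      have h3 : 2 * (2 ^ (S + 1) * lam) < a := by
        have : (2 : ℝ) * (2 ^ (S + 1) * lam) = 2 ^ (S + 2) * lam := by ring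
        rw [this]; exact h2
      rw [if_pos h3, mul_one]
      have h4 : 0 ≤ ∑ s ∈ range S, 16 * (2 ^ (s + 1) * lam) ^ 2 *
          (if 2 * (2 ^ (s + 1) * lam) < a then (1 : ℝ) else 0) := by
        apply sum_nonneg
        intro s _
        split_ifs <;> positivity
      have h5 : a ^ 2 ≤ (2 ^ (S + 1 + 2) * lam) ^ 2 := pow_le_pow_left₀ ha h 2
      have h6 : (2 ^ (S + 1 + 2) * lam) ^ 2 = 16 * (2 ^ (S + 1) * lam) ^ 2 := by ring
      have h7 : 0 ≤ 4 * lam * a := by positivity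
      linarith

lemma final_geom (S : ℕ) : ∑ s ∈ range S, 1 / (2 : ℝ) ^ (s + 1) ≤ 1 := by
  have h : ∀ S : ℕ, ∑ s ∈ range S, 1 / (2 : ℝ) ^ (s + 1) = 1 - 1 / 2 ^ S := by
    intro S
    induction S with
    | zero => simp
    | succ S ih => rw [sum_range_succ, ih]; field_simp; ring
  rw [h]
  have : (0 : ℝ) < 1 / 2 ^ S := by positivity
  linarith

lemma final_rr (k : ℕ) : (rr k : ℝ) ^ 6 * ((k : ℝ) + 1) ^ 2 ≤ 2985984 * ((k : ℝ) + 1) ^ 15 := by
  set K : ℝ := (k : ℝ) + 1 with hK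
  have hK1 : 1 ≤ K := by
    have : (0 : ℝ) ≤ k := Nat.cast_nonneg k
    linarith
  have hK0 : 0 < K := by linarith
  set u : ℝ := K ^ ((1 : ℝ) / 6) with hu
  have hu0 : 0 < u := by positivity
  have hu6 : u ^ 6 = K := by
    rw [hu, ← Real.rpow_natCast, ← Real.rpow_mul hK0.le]
    norm_num
  have hlog : Real.log K = 6 * Real.log u := by
    rw [← hu6, Real.log_pow]; norm_num
  have hlogu : Real.log u ≤ u - 1 := Real.log_le_sub_one_of_pos hu0
  have hlog4 : Real.log 4 ≤ 2 := by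
    have h1 : Real.log 4 = 2 * Real.log 2 := by
      rw [show (4 : ℝ) = 2 ^ 2 by norm_num, Real.log_pow]; norm_num
    rw [h1]
    have := Real.log_two_lt_d9
    linarith
  have hlogK : Real.log (4 * K) = Real.log 4 + Real.log K := Real.log_mul (by norm_num) hK0.ne'
  have hpos : 0 ≤ Real.log (4 * K) := Real.log_nonneg (by linarith)
  have hl : (⌈Real.log (4 * K)⌉₊ : ℝ) ≤ 6 * u := by
    have h1 := Nat.ceil_lt_add_one hpos
    linarith
  have hr : (rr k : ℝ) = 2 * K ^ 2 * ⌈Real.log (4 * K)⌉₊ := by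
    unfold rr; push_cast; rfl
  rw [hr]
  have h6 : (⌈Real.log (4 * K)⌉₊ : ℝ) ^ 6 ≤ 46656 * K := by
    calc (⌈Real.log (4 * K)⌉₊ : ℝ) ^ 6 ≤ (6 * u) ^ 6 := pow_le_pow_left₀ (by positivity) hl 6
      _ = 46656 * u ^ 6 := by ring
      _ = _ := by rw [hu6]
  calc (2 * K ^ 2 * (⌈Real.log (4 * K)⌉₊ : ℝ)) ^ 6 * K ^ 2
      = 64 * K ^ 14 * (⌈Real.log (4 * K)⌉₊ : ℝ) ^ 6 := by ring
    _ ≤ 64 * K ^ 14 * (46656 * K) := mul_le_mul_of_nonneg_left h6 (by positivity)
    _ = _ := by ring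

theorem main {n d k : ℕ} {f : Cube n → ℝ} (hf : DegLE f d) (J : Finset (Fin n))
    {lam : ℝ} (hM : maxDerivNorm f ≤ lam)
    (hk : ∀ j ∈ J, {t : ℝ | lam < t ∧ ∃ x, |discreteDeriv j f x| = t}.ncard ≤ k) :
    ∑ j ∈ J, derivNorm j f ^ 2
      ≤ 2 ^ 31 * ((k : ℝ) + 1) ^ 15 * (d : ℝ) ^ 9 * supNorm f * lam := by
  have hK0 : 0 ≤ supNorm f := supNorm_nonneg f
  have hM0 : 0 ≤ maxDerivNorm f := maxDerivNorm_nonneg f
  rcases (hM0.trans hM).eq_or_lt with h0 | hlam
  · -- all derivatives vanish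
    have hz : ∀ j, derivNorm j f = 0 := by
      intro j
      apply le_antisymm _ (derivNorm_nonneg f j)
      exact (derivNorm_le f j).trans (hM.trans h0.symm.le)
    have : ∑ j ∈ J, derivNorm j f ^ 2 = 0 := by
      apply sum_eq_zero; intro j _; rw [hz j]; norm_num
    rw [this, ← h0]; simp
  -- the number of scales
  obtain ⟨S, hS⟩ : ∃ S : ℕ, supNorm f ≤ 2 ^ (S + 2) * lam := by
    obtain ⟨S, hS⟩ := pow_unbounded_of_one_lt (supNorm f / lam) (by norm_num : (1 : ℝ) < 2)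
    refine ⟨S, ?_⟩
    rw [div_lt_iff₀ hlam] at hS
    have h1 : (2 : ℝ) ^ S * lam ≤ 2 ^ (S + 2) * lam := by
      apply mul_le_mul_of_nonneg_right _ hlam.le
      exact pow_le_pow_right₀ (by norm_num) (by omega)
    linarith
  have hD : ∀ j x, |discreteDeriv j f x| ≤ supNorm f := by
    intro j x
    unfold discreteDeriv
    have h1 := abs_le.1 (le_supNorm f (Function.update x j 1))
    have h2 := abs_le.1 (le_supNorm f (Function.update x j (-1)))
    rw [abs_le]; constructor <;> linarith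
  set R : ℝ := (rr k : ℝ) ^ 6 * ((k : ℝ) + 1) ^ 2 * (d : ℝ) ^ 9 with hR
  have hR0 : 0 ≤ R := by positivity
  -- one coordinate
  have hone : ∀ j, derivNorm j f ^ 2 ≤ 4 * lam * ex (fun x => |discreteDeriv j f x|)
      + ∑ s ∈ range S, 16 * (2 ^ (s + 1) * lam) ^ 2 *
        ex (fun x => if 2 * (2 ^ (s + 1) * lam) < |discreteDeriv j f x| then (1 : ℝ) else 0) := by
    intro j
    rw [derivNorm_sq]
    have h1 : ex (fun x => discreteDeriv j f x ^ 2)
        ≤ ex (fun x => 4 * lam * |discreteDeriv j f x| + ∑ s ∈ range S,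
          16 * (2 ^ (s + 1) * lam) ^ 2 *
            (if 2 * (2 ^ (s + 1) * lam) < |discreteDeriv j f x| then (1 : ℝ) else 0)) := by
      apply ex_mono
      intro x
      rw [← sq_abs (discreteDeriv j f x)]
      exact final_dyadic hlam (abs_nonneg _) S ((hD j x).trans hS)
    rw [ex_add, ex_const_mul, ex_sum] at h1
    simp_rw [ex_const_mul] at h1
    exact h1
  have hscale : ∀ s ∈ range S, ∑ j ∈ J, 16 * (2 ^ (s + 1) * lam) ^ 2 *
        ex (fun x => if 2 * (2 ^ (s + 1) * lam) < |discreteDeriv j f x| then (1 : ℝ) else 0)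
      ≤ (2048 / 3) * R * supNorm f * lam * (1 / (2 : ℝ) ^ (s + 1)) := by
    intro s _
    have hmu : 2 * lam ≤ 2 ^ (s + 1) * lam := by
      apply mul_le_mul_of_nonneg_right _ hlam.le
      calc (2 : ℝ) = 2 ^ 1 := by norm_num
        _ ≤ 2 ^ (s + 1) := pow_le_pow_right₀ (by norm_num) (by omega)
    have h1 := scale_bound hf J hlam hM hmu hk
    rw [← mul_sum]
    calc _ ≤ 16 * (2 ^ (s + 1) * lam) ^ 2 * ((128 / 3) * (rr k : ℝ) ^ 6 * ((k : ℝ) + 1) ^ 2
          * (d : ℝ) ^ 9 * supNorm f * lam ^ 2 / (2 ^ (s + 1) * lam) ^ 3) :=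
          mul_le_mul_of_nonneg_left h1 (by positivity)
      _ = _ := by rw [hR]; field_simp; ring
  have hell1 : ∑ j ∈ J, ex (fun x => |discreteDeriv j f x|) ≤ 2 * (d : ℝ) ^ 2 * supNorm f := by
    rw [← ex_sum]
    calc ex (fun x => ∑ j ∈ J, |discreteDeriv j f x|)
        ≤ ex (fun _ : Cube n => 2 * (d : ℝ) ^ 2 * supNorm f) := by
          apply ex_mono
          intro x
          exact (sum_le_sum_of_subset_of_nonneg (subset_univ _)
            (fun _ _ _ => abs_nonneg _)).trans (sum_abs_deriv_le hf (le_supNorm f) x)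
      _ = _ := ex_const _
  have hd : (d : ℝ) ^ 2 ≤ (d : ℝ) ^ 9 := by
    rcases Nat.eq_zero_or_pos d with rfl | hd
    · simp
    · exact pow_le_pow_right₀ (by exact_mod_cast hd) (by norm_num)
  have hk1 : (1 : ℝ) ≤ ((k : ℝ) + 1) ^ 15 := one_le_pow₀ (by
    have : (0 : ℝ) ≤ k := Nat.cast_nonneg k
    linarith)
  calc ∑ j ∈ J, derivNorm j f ^ 2
      ≤ ∑ j ∈ J, (4 * lam * ex (fun x => |discreteDeriv j f x|)
        + ∑ s ∈ range S, 16 * (2 ^ (s + 1) * lam) ^ 2 *
        ex (fun x => if 2 * (2 ^ (s + 1) * lam) < |discreteDeriv j f x| then (1 : ℝ) else 0)) :=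
        sum_le_sum (fun j _ => hone j)
    _ = 4 * lam * ∑ j ∈ J, ex (fun x => |discreteDeriv j f x|)
        + ∑ s ∈ range S, ∑ j ∈ J, 16 * (2 ^ (s + 1) * lam) ^ 2 *
        ex (fun x => if 2 * (2 ^ (s + 1) * lam) < |discreteDeriv j f x| then (1 : ℝ) else 0) := by
        rw [sum_add_distrib, mul_sum, sum_comm]
    _ ≤ 4 * lam * (2 * (d : ℝ) ^ 2 * supNorm f)
        + ∑ s ∈ range S, (2048 / 3) * R * supNorm f * lam * (1 / (2 : ℝ) ^ (s + 1)) := by
        apply add_le_add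
        · exact mul_le_mul_of_nonneg_left hell1 (by positivity)
        · exact sum_le_sum hscale
    _ ≤ 8 * (d : ℝ) ^ 2 * supNorm f * lam + (2048 / 3) * R * supNorm f * lam := by
        rw [← mul_sum]
        have h2 := mul_le_mul_of_nonneg_left (final_geom S)
          (by positivity : (0 : ℝ) ≤ (2048 / 3) * R * supNorm f * lam)
        linarith
    _ ≤ 8 * (((k : ℝ) + 1) ^ 15 * (d : ℝ) ^ 9) * supNorm f * lam
        + (2048 / 3) * (2985984 * ((k : ℝ) + 1) ^ 15 * (d : ℝ) ^ 9) * supNorm f * lam := by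
        apply add_le_add
        · apply mul_le_mul_of_nonneg_right _ hlam.le
          apply mul_le_mul_of_nonneg_right _ hK0
          have h3 : (d : ℝ) ^ 2 ≤ ((k : ℝ) + 1) ^ 15 * (d : ℝ) ^ 9 := by
            have h4 : (0 : ℝ) ≤ (d : ℝ) ^ 9 := by positivity
            nlinarith
          linarith
        · apply mul_le_mul_of_nonneg_right _ hlam.le
          apply mul_le_mul_of_nonneg_right _ hK0
          apply mul_le_mul_of_nonneg_left _ (by norm_num)
          rw [hR]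
          exact mul_le_mul_of_nonneg_right (final_rr k) (by positivity)
    _ ≤ _ := by
        have h5 : 0 ≤ ((k : ℝ) + 1) ^ 15 * (d : ℝ) ^ 9 * supNorm f * lam := by positivity
        nlinarith

end Pool.Agent.Helper24.FewDer
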