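import Pool.Agent.Helper24.FewDer.Defs

/-!
Degrees and second derivatives.
-/

set_option linter.dupNamespace false

namespace Pool.Agent.Helper24.FewDer

open Finset Pool.Agent.Helper11.Cube Pool.Agent.Helper11.AA

lemma inf_chi_update {n : ℕ} (T : Finset (Fin n)) (x : Cube n) (j : Fin n) (u : ℤˣ) :
    chi T (Function.update x j u)
      = if j ∈ T then ((u : ℤ) : ℝ) * chi (T.erase j) x else chi T x := by
  unfold chi
  split_ifs with h
  · rw [← Finset.mul_prod_erase T _ h, Function.update_self]
    congr 1
    apply Finset.prod_congr rfl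
    intro i hi
    rw [Function.update_of_ne (Finset.ne_of_mem_erase hi)]
  · apply Finset.prod_congr rfl
    intro i hi
    rw [Function.update_of_ne]
    rintro rfl
    exact h hi

lemma inf_deriv_formula {n : ℕ} (f : Cube n → ℝ) (j : Fin n) (x : Cube n) :
    discreteDeriv j f x
      = ∑ T : Finset (Fin n), (if j ∈ T then coef f T else 0) * chi (T.erase j) x := by
  unfold discreteDeriv
  rw [inversion f (Function.update x j 1), inversion f (Function.update x j (-1)),
    ← Finset.sum_sub_distrib, Finset.sum_div]
  apply Finset.sum_congr rfl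
  intro T _
  rw [inf_chi_update, inf_chi_update]
  split_ifs with h
  · push_cast; ring
  · ring

lemma degLE_deriv {n d : ℕ} {f : Cube n → ℝ} (hf : DegLE f d) (j : Fin n) :
    DegLE (discreteDeriv j f) d := by
  have h : discreteDeriv j f
      = fun x => ∑ T : Finset (Fin n), (if j ∈ T then coef f T else 0) * chi (T.erase j) x := by
    funext x
    exact inf_deriv_formula f j x
  rw [h]
  apply degLE_sum
  intro T _
  by_cases hT : d < T.card
  · have h0 : (if j ∈ T then coef f T else 0) = 0 := by
      split_ifs
      · exact hf T hT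
      · rfl
    rw [h0]
    simp only [zero_mul]
    exact degLE_const 0
  · apply degLE_const_mul
    apply degLE_mono (degLE_chi _)
    exact le_trans (Finset.card_le_card (Finset.erase_subset _ _)) (not_lt.mp hT)

lemma inf_deriv_comm {n : ℕ} (f : Cube n → ℝ) (i j : Fin n) (x : Cube n) :
    discreteDeriv i (discreteDeriv j f) x = discreteDeriv j (discreteDeriv i f) x := by
  by_cases h : i = j
  · rw [h]
  · unfold discreteDeriv
    rw [Function.update_comm h, Function.update_comm h, Function.update_comm h,
      Function.update_comm h]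
    ring

lemma inf_sum_deriv_sq {n d : ℕ} {g : Cube n → ℝ} (hg : DegLE g d) :
    ∑ j, ex (fun x => discreteDeriv j g x ^ 2) ≤ d * ex (fun x => g x ^ 2) := by
  simp_rw [ex_deriv_sq, Finset.sum_filter]
  rw [Finset.sum_comm, parseval, Finset.mul_sum]
  apply Finset.sum_le_sum
  intro S _
  rw [← Finset.sum_filter, Finset.sum_const, nsmul_eq_mul]
  have h1 : (univ.filter (fun j => j ∈ S)) = S := by
    ext j; simp
  rw [h1]
  by_cases hS : d < S.card
  · rw [hg S hS]; simp
  · apply mul_le_mul_of_nonneg_right _ (sq_nonneg _)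
    exact_mod_cast not_lt.mp hS

lemma sum_second_le {n d : ℕ} {f : Cube n → ℝ} (hf : DegLE f d) (i : Fin n) :
    ∑ j, ex (fun x => discreteDeriv i (discreteDeriv j f) x ^ 2) ≤ d * maxDerivNorm f ^ 2 := by
  have h1 : ∀ j, (fun x => discreteDeriv i (discreteDeriv j f) x ^ 2)
      = fun x => discreteDeriv j (discreteDeriv i f) x ^ 2 := by
    intro j
    funext x
    rw [inf_deriv_comm]
  simp_rw [h1]
  refine le_trans (inf_sum_deriv_sq (degLE_deriv hf i)) ?_
  rw [← derivNorm_sq]
  apply mul_le_mul_of_nonneg_left _ (Nat.cast_nonneg d)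
  exact pow_le_pow_left₀ (derivNorm_nonneg f i) (derivNorm_le f i) 2

end Pool.Agent.Helper24.FewDer
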