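import Pool.Agent.Helper24.FewDer.Defs

/-!
Level functions of a low degree function with few large values have low block sensitivity.
-/

set_option linter.dupNamespace false

namespace Pool.Agent.Helper24.FewDer

open Finset Pool.Agent.Helper11.Cube Pool.Agent.Helper11.AA Polynomial

/-- Pigeonhole: one of the `k + 1` intervals contains no value of `|g|`. -/
lemma level_gap {n k : ℕ} {g : Cube n → ℝ} {lam mu : ℝ} (hlam : 0 < lam)
    (hmu : lam ≤ mu) (hk : {t : ℝ | lam < t ∧ ∃ x, |g x| = t}.ncard ≤ k) :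
    ∃ i : ℕ, i < k + 1 ∧ ∀ x, ¬ (mu + i * (mu / ((k : ℝ) + 1)) < |g x| ∧
      |g x| ≤ mu + (i + 1) * (mu / ((k : ℝ) + 1))) := by
  classical
  by_contra hcon
  push Not at hcon
  have hmu0 : 0 < mu := lt_of_lt_of_le hlam hmu
  have hK : (0 : ℝ) < (k : ℝ) + 1 := by positivity
  have hstep : 0 < mu / ((k : ℝ) + 1) := div_pos hmu0 hK
  choose x hx using hcon
  have hfin : {t : ℝ | lam < t ∧ ∃ x, |g x| = t}.Finite := by
    apply Set.Finite.subset (Set.finite_range (fun x => |g x|))
    rintro t ⟨_, y, hy⟩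
    exact ⟨y, hy⟩
  have h1 : (Finset.univ.image (fun i : Fin (k + 1) => |g (x i i.2)|)).card = k + 1 := by
    rw [Finset.card_image_of_injective, Finset.card_univ, Fintype.card_fin]
    intro a b hab
    simp only at hab
    have ha := hx a a.2
    have hb := hx b b.2
    rw [hab] at ha
    have hlt : ∀ u v : ℕ, mu + (u : ℝ) * (mu / ((k : ℝ) + 1))
        < mu + ((v : ℝ) + 1) * (mu / ((k : ℝ) + 1)) → u ≤ v := by
      intro u v huv
      have h2 : (u : ℝ) * (mu / ((k : ℝ) + 1)) < ((v : ℝ) + 1) * (mu / ((k : ℝ) + 1)) := by linarith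
      have h3 : (u : ℝ) < (v : ℝ) + 1 := lt_of_mul_lt_mul_right h2 hstep.le
      have h4 : u < v + 1 := by exact_mod_cast h3
      omega
    have e1 := hlt a b (lt_of_lt_of_le ha.1 hb.2)
    have e2 := hlt b a (lt_of_lt_of_le hb.1 ha.2)
    exact Fin.ext (le_antisymm e1 e2)
  have h2 : ((Finset.univ.image (fun i : Fin (k + 1) => |g (x i i.2)|) : Finset ℝ) : Set ℝ)
      ⊆ {t : ℝ | lam < t ∧ ∃ x, |g x| = t} := by
    intro t ht
    rw [Finset.mem_coe, Finset.mem_image] at ht
    obtain ⟨i, _, rfl⟩ := ht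
    refine ⟨?_, x i i.2, rfl⟩
    have := (hx i i.2).1
    have h3 : 0 ≤ ((i : ℕ) : ℝ) * (mu / ((k : ℝ) + 1)) := by positivity
    linarith
  have h3 := Set.ncard_le_ncard h2 hfin
  rw [Set.ncard_coe_finset, h1] at h3
  omega

/-- `∏ (1 - a_v)` is between `1 - ∑ a_v` and `1`. -/
lemma level_prod {ι : Type*} (O : Finset ι) (a : ι → ℝ) (h0 : ∀ v ∈ O, 0 ≤ a v)
    (h1 : ∀ v ∈ O, a v ≤ 1) :
    0 ≤ ∏ v ∈ O, (1 - a v) ∧ ∏ v ∈ O, (1 - a v) ≤ 1 ∧ 1 - ∑ v ∈ O, a v ≤ ∏ v ∈ O, (1 - a v) := by
  classical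
  induction O using Finset.induction_on with
  | empty => simp
  | insert v O hv ih =>
    obtain ⟨i0, i1, i2⟩ := ih (fun w hw => h0 w (Finset.mem_insert_of_mem hw))
      (fun w hw => h1 w (Finset.mem_insert_of_mem hw))
    have a0 := h0 v (Finset.mem_insert_self _ _)
    have a1 := h1 v (Finset.mem_insert_self _ _)
    have s0 : 0 ≤ ∑ w ∈ O, a w :=
      Finset.sum_nonneg (fun w hw => h0 w (Finset.mem_insert_of_mem hw))
    rw [Finset.prod_insert hv, Finset.sum_insert hv]
    refine ⟨mul_nonneg (by linarith) i0, ?_, ?_⟩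
    · calc (1 - a v) * ∏ w ∈ O, (1 - a w) ≤ 1 * 1 :=
          mul_le_mul (by linarith) i1 i0 zero_le_one
        _ = 1 := one_mul 1
    · nlinarith

/-- The numerical estimate. -/
lemma level_num {k l : ℕ} {p p' : ℝ} (hp : 0 < p) (hp' : 0 < p')
    (hr : p / p' ≤ 1 - 1 / (2 * ((k : ℝ) + 1))) (hl : Real.log (4 * ((k : ℝ) + 1)) ≤ l) :
    (k : ℝ) * (p / p') ^ (2 * ((k + 1) * l)) ≤ 1 / 4 := by
  have hK : (0 : ℝ) < (k : ℝ) + 1 := by positivity
  have h0 : 0 ≤ p / p' := by positivity
  have h1 : p / p' ≤ Real.exp (-(1 / (2 * ((k : ℝ) + 1)))) := by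
    have := Real.add_one_le_exp (-(1 / (2 * ((k : ℝ) + 1))))
    linarith
  have h2 : (p / p') ^ (2 * ((k + 1) * l)) ≤ Real.exp (-(l : ℝ)) := by
    calc (p / p') ^ (2 * ((k + 1) * l))
        ≤ Real.exp (-(1 / (2 * ((k : ℝ) + 1)))) ^ (2 * ((k + 1) * l)) := pow_le_pow_left₀ h0 h1 _
      _ = Real.exp (-(l : ℝ)) := by
        rw [← Real.exp_nat_mul]
        congr 1
        push_cast
        field_simp
  have h3 : Real.exp (-(l : ℝ)) ≤ 1 / (4 * ((k : ℝ) + 1)) := by
    rw [Real.exp_neg, ← one_div]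
    apply one_div_le_one_div_of_le (by positivity)
    have h4 : Real.exp (Real.log (4 * ((k : ℝ) + 1))) = 4 * ((k : ℝ) + 1) :=
      Real.exp_log (by positivity)
    rw [← h4]
    exact Real.exp_le_exp.mpr hl
  calc (k : ℝ) * (p / p') ^ (2 * ((k + 1) * l)) ≤ (k : ℝ) * (1 / (4 * ((k : ℝ) + 1))) :=
        mul_le_mul_of_nonneg_left (h2.trans h3) (Nat.cast_nonneg k)
    _ ≤ 1 / 4 := by
        rw [mul_one_div, div_le_div_iff₀ (by positivity) (by norm_num)]
        linarith

/-- The threshold polynomial. -/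
noncomputable def level_poly (O : Finset ℝ) (m : ℕ) : ℝ[X] :=
  1 - ∏ v ∈ O, (1 - C ((v⁻¹) ^ m) * X ^ m)

lemma level_poly_eval (O : Finset ℝ) (m : ℕ) (t : ℝ) :
    (level_poly O m).eval t = 1 - ∏ v ∈ O, (1 - (t / v) ^ m) := by
  unfold level_poly
  rw [eval_sub, eval_one, eval_prod]
  congr 1
  apply Finset.prod_congr rfl
  intro v _
  rw [eval_sub, eval_one, eval_mul, eval_C, eval_pow, eval_X, div_eq_mul_inv, mul_pow, mul_comm]

lemma level_poly_natDegree (O : Finset ℝ) (m : ℕ) :
    (level_poly O m).natDegree ≤ O.card * m := by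
  unfold level_poly
  refine le_trans (natDegree_sub_le _ _) ?_
  rw [natDegree_one, Nat.zero_max]
  refine le_trans (natDegree_prod_le _ _) ?_
  calc ∑ v ∈ O, (1 - C ((v⁻¹) ^ m) * X ^ m : ℝ[X]).natDegree ≤ ∑ _v ∈ O, m := by
        apply Finset.sum_le_sum
        intro v _
        refine le_trans (natDegree_sub_le _ _) ?_
        rw [natDegree_one, Nat.zero_max]
        exact natDegree_C_mul_X_pow_le _ _
    _ = O.card * m := by rw [Finset.sum_const, smul_eq_mul]

/-- Boolean level functions of low block sensitivity -/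
theorem level {n d k : ℕ} {g : Cube n → ℝ} (hg : DegLE g d) {lam mu : ℝ} (hlam : 0 < lam)
    (hmu : lam ≤ mu) (hk : {t : ℝ | lam < t ∧ ∃ x, |g x| = t}.ncard ≤ k) :
    ∃ h : Cube n → ℝ, (∀ x, h x = 0 ∨ h x = 1) ∧ (∀ x, h x = 1 → mu < |g x|) ∧
      (∀ x, 2 * mu < |g x| → h x = 1) ∧
      (∀ x y, h x ≠ h y → mu / ((k : ℝ) + 1) ≤ |g x - g y|) ∧
      BSLe h (2 * (rr k * d) ^ 2) := by
  classical
  obtain ⟨i, hi, hgap⟩ := level_gap hlam hmu hk
  have hmu0 : 0 < mu := lt_of_lt_of_le hlam hmu
  have hK : (0 : ℝ) < (k : ℝ) + 1 := by positivity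
  have hstep : 0 < mu / ((k : ℝ) + 1) := div_pos hmu0 hK
  set p : ℝ := mu + i * (mu / ((k : ℝ) + 1)) with hp
  set p' : ℝ := mu + (i + 1) * (mu / ((k : ℝ) + 1)) with hp'
  have hpp : p' = p + mu / ((k : ℝ) + 1) := by rw [hp, hp']; ring
  have hmup : mu ≤ p := by
    rw [hp]
    have : 0 ≤ (i : ℝ) * (mu / ((k : ℝ) + 1)) := by positivity
    linarith
  have hp0 : 0 < p := lt_of_lt_of_le hmu0 hmup
  have hp'0 : 0 < p' := by rw [hpp]; linarith
  have hp'2 : p' ≤ 2 * mu := by
    rw [hp']
    have h1 : ((i : ℝ) + 1) ≤ (k : ℝ) + 1 := by exact_mod_cast hi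
    have h2 : ((i : ℝ) + 1) * (mu / ((k : ℝ) + 1)) ≤ ((k : ℝ) + 1) * (mu / ((k : ℝ) + 1)) :=
      mul_le_mul_of_nonneg_right h1 hstep.le
    rw [mul_div_cancel₀ _ hK.ne'] at h2
    linarith
  have hdich : ∀ x, p < |g x| → p' < |g x| := by
    intro x hx
    by_contra hle
    exact hgap x ⟨hx, not_lt.mp hle⟩
  -- the level function
  refine ⟨fun x => if p < |g x| then 1 else 0, ?_, ?_, ?_, ?_, ?_⟩
  · intro x
    by_cases hx : p < |g x|
    · right; simp [hx]
    · left; simp [hx]
  · intro x hx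
    by_cases hx' : p < |g x|
    · exact lt_of_le_of_lt hmup hx'
    · simp [hx'] at hx
  · intro x hx
    have : p < |g x| := by linarith
    simp [this]
  · intro x y hxy
    have key : ∀ a b : Cube n, p < |g a| → ¬ p < |g b| → mu / ((k : ℝ) + 1) ≤ |g a - g b| := by
      intro a b ha hb
      have h1 := hdich a ha
      have h2 := abs_sub_abs_le_abs_sub (g a) (g b)
      push Not at hb
      linarith
    by_cases hx : p < |g x| <;> by_cases hy : p < |g y|
    · simp [hx, hy] at hxy
    · exact key x y hx hy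
    · rw [abs_sub_comm]; exact key y x hy hx
    · simp [hx, hy] at hxy
  · -- block sensitivity
    have hfin : {t : ℝ | lam < t ∧ ∃ x, |g x| = t}.Finite := by
      apply Set.Finite.subset (Set.finite_range (fun x => |g x|))
      rintro t ⟨_, y, hy⟩
      exact ⟨y, hy⟩
    set O : Finset ℝ := hfin.toFinset.filter (fun v => p' < v) with hO
    have hOcard : O.card ≤ k := by
      refine le_trans (Finset.card_filter_le _ _) ?_
      rw [← Set.ncard_eq_toFinset_card _ hfin]
      exact hk
    set l : ℕ := ⌈Real.log (4 * ((k : ℝ) + 1))⌉₊ with hl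
    set m : ℕ := 2 * ((k + 1) * l) with hm
    have hmeven : Even m := ⟨(k + 1) * l, by rw [hm]; ring⟩
    have hratio : p / p' ≤ 1 - 1 / (2 * ((k : ℝ) + 1)) := by
      rw [div_le_iff₀ hp'0]
      have h1 : 1 / (2 * ((k : ℝ) + 1)) * p' ≤ mu / ((k : ℝ) + 1) := by
        have : mu / ((k : ℝ) + 1) = 1 / (2 * ((k : ℝ) + 1)) * (2 * mu) := by field_simp
        rw [this]
        exact mul_le_mul_of_nonneg_left hp'2 (by positivity)
      have h2 : (1 - 1 / (2 * ((k : ℝ) + 1))) * p' = p' - 1 / (2 * ((k : ℝ) + 1)) * p' := by ring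
      rw [h2]
      linarith
    have hnum := level_num (k := k) (l := l) hp0 hp'0 hratio (Nat.le_ceil _)
    rw [← hm] at hnum
    -- values of the polynomial
    have hhigh : ∀ x, p < |g x| → (level_poly O m).eval (g x) = 1 := by
      intro x hx
      have hx' := hdich x hx
      rw [level_poly_eval]
      have hmem : |g x| ∈ O := by
        rw [hO, Finset.mem_filter, Set.Finite.mem_toFinset]
        refine ⟨⟨?_, x, rfl⟩, hx'⟩
        linarith
      rw [Finset.prod_eq_zero hmem, sub_zero]
      have h0 : |g x| ≠ 0 := by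
        have : 0 < |g x| := lt_trans hp0 hx
        exact this.ne'
      have h1 : (g x / |g x|) ^ m = 1 := by
        rw [← hmeven.pow_abs, abs_div, abs_abs, div_self h0, one_pow]
      rw [h1, sub_self]
    have hlow : ∀ x, ¬ p < |g x| → 0 ≤ (level_poly O m).eval (g x) ∧
        (level_poly O m).eval (g x) ≤ 1 / 4 := by
      intro x hx
      push Not at hx
      rw [level_poly_eval]
      have ha : ∀ v ∈ O, 0 ≤ (g x / v) ^ m ∧ (g x / v) ^ m ≤ (p / p') ^ m := by
        intro v hv
        rw [hO, Finset.mem_filter] at hv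
        have hv0 : 0 < v := lt_trans hp'0 hv.2
        refine ⟨hmeven.pow_nonneg _, ?_⟩
        rw [← hmeven.pow_abs]
        apply pow_le_pow_left₀ (abs_nonneg _)
        rw [abs_div, abs_of_pos hv0]
        exact div_le_div₀ hp0.le hx hp'0 hv.2.le
      have hpp1 : (p / p') ^ m ≤ 1 := by
        apply pow_le_one₀ (by positivity)
        refine hratio.trans ?_
        have : 0 ≤ 1 / (2 * ((k : ℝ) + 1)) := by positivity
        linarith
      obtain ⟨-, h1, h2⟩ := level_prod O (fun v => (g x / v) ^ m) (fun v hv => (ha v hv).1)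
        (fun v hv => (ha v hv).2.trans hpp1)
      refine ⟨by linarith, ?_⟩
      have h3 : ∑ v ∈ O, (g x / v) ^ m ≤ k * (p / p') ^ m := by
        calc ∑ v ∈ O, (g x / v) ^ m ≤ ∑ _v ∈ O, (p / p') ^ m :=
              Finset.sum_le_sum (fun v hv => (ha v hv).2)
          _ = O.card * (p / p') ^ m := by rw [Finset.sum_const, nsmul_eq_mul]
          _ ≤ k * (p / p') ^ m := by
              apply mul_le_mul_of_nonneg_right _ (by positivity)
              exact_mod_cast hOcard
      linarith
    -- the polynomial of degree at most rr k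
    set P : ℝ[X] := C 2 * level_poly O m - 1 with hP
    have hPdeg : P.natDegree ≤ rr k := by
      rw [hP]
      refine le_trans (natDegree_sub_le _ _) ?_
      rw [natDegree_one, Nat.max_zero]
      refine le_trans (natDegree_C_mul_le _ _) ?_
      refine le_trans (level_poly_natDegree O m) ?_
      calc O.card * m ≤ (k + 1) * m := Nat.mul_le_mul_right _ (by omega)
        _ = rr k := by rw [hm]; unfold rr; rw [← hl]; ring
    have hF : DegLE (fun x => P.eval (g x)) (rr k * d) := degLE_eval hg P hPdeg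
    have hPe : ∀ x, P.eval (g x) = 2 * (level_poly O m).eval (g x) - 1 := by
      intro x
      rw [hP, eval_sub, eval_mul, eval_C, eval_one]
    have hFb : ∀ x, |P.eval (g x)| ≤ 1 := by
      intro x
      rw [hPe, abs_le]
      by_cases hx : p < |g x|
      · rw [hhigh x hx]; norm_num
      · have := hlow x hx
        constructor <;> linarith
    intro y Cf hdisj hC
    have hflip := block_flip_bound Cf (id : Finset (Fin n) → Finset (Fin n)) hdisj hF hFb y
    have hsum : (3 / 2 : ℝ) * Cf.card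
        ≤ |∑ A ∈ Cf, (P.eval (g y) - P.eval (g (flipOn (id A) y)))| := by
      by_cases hy : p < |g y|
      · refine le_trans ?_ (le_abs_self _)
        calc (3 / 2 : ℝ) * Cf.card = ∑ _A ∈ Cf, (3 / 2 : ℝ) := by
              rw [Finset.sum_const, nsmul_eq_mul]; ring
          _ ≤ _ := by
              apply Finset.sum_le_sum
              intro A hA
              have h1 := hC A hA
              have h2 : ¬ p < |g (flipOn A y)| := by
                intro h3
                apply h1
                simp [hy, h3]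
              have h3 := hlow _ h2
              simp only [id]
              rw [hPe, hPe, hhigh y hy]
              linarith [h3.2]
      · refine le_trans ?_ (neg_le_abs _)
        rw [← Finset.sum_neg_distrib]
        calc (3 / 2 : ℝ) * Cf.card = ∑ _A ∈ Cf, (3 / 2 : ℝ) := by
              rw [Finset.sum_const, nsmul_eq_mul]; ring
          _ ≤ _ := by
              apply Finset.sum_le_sum
              intro A hA
              have h1 := hC A hA
              have h2 : p < |g (flipOn A y)| := by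
                by_contra h3
                apply h1
                simp [hy, h3]
              have h3 := hlow _ hy
              simp only [id]
              rw [hPe, hPe, hhigh _ h2]
              linarith [h3.2]
    have hfinal : (Cf.card : ℝ) ≤ 2 * (((rr k * d : ℕ) : ℝ)) ^ 2 := by
      have h1 : (3 / 2 : ℝ) * Cf.card ≤ 2 * (((rr k * d : ℕ) : ℝ)) ^ 2 * 1 := hsum.trans hflip
      have h2 : (0 : ℝ) ≤ Cf.card := Nat.cast_nonneg _
      linarith
    exact_mod_cast hfinal

end Pool.Agent.Helper24.FewDer
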