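import Pool.Agent.Helper24.FewDer.Defs

set_option linter.dupNamespace false

namespace Pool.Agent.Helper24.FewDer

open Finset Pool.Agent.Helper11.Cube Pool.Agent.Helper11.AA

/-- total influence (energy of the discrete gradient) -/
noncomputable def tinf {n : ℕ} (F : Cube n → ℝ) : ℝ :=
  ∑ l, ex (fun x => discreteDeriv l F x ^ 2)

lemma tinf_nonneg {n : ℕ} (F : Cube n → ℝ) : 0 ≤ tinf F :=
  sum_nonneg fun _ _ => ex_nonneg fun _ => sq_nonneg _

/-- expectation of a function given by a query of the coordinate `i` -/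
lemma ex_ite_query {n : ℕ} (i : Fin n) (G1 G2 : Cube n → ℝ)
    (i1 : ∀ x, G1 (flipOn {i} x) = G1 x) (i2 : ∀ x, G2 (flipOn {i} x) = G2 x) :
    ex (fun x => if x i = 1 then G1 x else G2 x) = (1 / 2) * ex G1 + (1 / 2) * ex G2 := by
  have h1 := ex_flipOn {i} (fun x => if x i = 1 then G1 x else G2 x)
  have h2 : ∀ x : Cube n, (if x i = 1 then G1 x else G2 x)
      + (if (flipOn {i} x) i = 1 then G1 (flipOn {i} x) else G2 (flipOn {i} x)) = G1 x + G2 x := by
    intro x
    rw [i1, i2]
    rcases Int.units_eq_one_or (x i) with h | h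
    · have h3 : ¬ (flipOn {i} x) i = 1 := by simp [flipOn, h]
      rw [if_pos h, if_neg h3]
    · have h3 : (flipOn {i} x) i = 1 := by simp [flipOn, h]
      have h4 : ¬ x i = 1 := by rw [h]; decide
      rw [if_neg h4, if_pos h3]; ring
  have h5 : ex (fun x => if x i = 1 then G1 x else G2 x)
      + ex (fun x => if (flipOn {i} x) i = 1 then G1 (flipOn {i} x) else G2 (flipOn {i} x))
      = ex G1 + ex G2 := by
    rw [← ex_add, ← ex_add]
    congr 1
    funext x
    exact h2 x
  have h6 : ex (fun x => if (flipOn {i} x) i = 1 then G1 (flipOn {i} x) else G2 (flipOn {i} x))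
      = ex (fun x => if x i = 1 then G1 x else G2 x) := h1
  rw [h6] at h5
  linarith

/-- recursion of the total influence at the root of a decision tree -/
lemma tinf_node {n : ℕ} (i : Fin n) (F F1 F2 : Cube n → ℝ)
    (hF : ∀ x, F x = if x i = 1 then F1 x else F2 x)
    (i1 : ∀ x, F1 (flipOn {i} x) = F1 x) (i2 : ∀ x, F2 (flipOn {i} x) = F2 x) :
    tinf F = (1 / 2) * tinf F1 + (1 / 2) * tinf F2 + (1 / 4) * ex (fun x => (F1 x - F2 x) ^ 2) := by
  classical
  -- invariance under `update` at `i`
  have upd : ∀ (G : Cube n → ℝ), (∀ x, G (flipOn {i} x) = G x) → ∀ x u,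
      G (Function.update x i u) = G x := by
    intro G hG x u
    by_cases h : u = x i
    · rw [h, Function.update_eq_self]
    · have : Function.update x i u = flipOn {i} x := by
        funext l
        by_cases hl : l = i
        · subst hl
          rcases Int.units_eq_one_or u with h1 | h1 <;>
            rcases Int.units_eq_one_or (x l) with h2 | h2
          · exact absurd (h1.trans h2.symm) h
          · simp [flipOn, h1, h2]
          · simp [flipOn, h1, h2]
          · exact absurd (h1.trans h2.symm) h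
        · simp [flipOn, hl]
      rw [this, hG]
  have hi : ex (fun x => discreteDeriv i F x ^ 2) = (1 / 4) * ex (fun x => (F1 x - F2 x) ^ 2) := by
    rw [← ex_const_mul]
    congr 1
    funext x
    unfold discreteDeriv
    rw [hF, hF]
    simp only [Function.update_self, if_true]
    rw [if_neg (by decide), upd F1 i1, upd F2 i2]
    ring
  have hi1 : ex (fun x => discreteDeriv i F1 x ^ 2) = 0 := by
    have : (fun x => discreteDeriv i F1 x ^ 2) = fun _ => 0 := by
      funext x; unfold discreteDeriv; rw [upd F1 i1, upd F1 i1]; simp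
    rw [this, ex_const]
  have hi2 : ex (fun x => discreteDeriv i F2 x ^ 2) = 0 := by
    have : (fun x => discreteDeriv i F2 x ^ 2) = fun _ => 0 := by
      funext x; unfold discreteDeriv; rw [upd F2 i2, upd F2 i2]; simp
    rw [this, ex_const]
  have hl : ∀ l ∈ univ.erase i, ex (fun x => discreteDeriv l F x ^ 2)
      = (1 / 2) * ex (fun x => discreteDeriv l F1 x ^ 2)
        + (1 / 2) * ex (fun x => discreteDeriv l F2 x ^ 2) := by
    intro l hl
    have hne : l ≠ i := ne_of_mem_erase hl
    have inv : ∀ (G : Cube n → ℝ), (∀ x, G (flipOn {i} x) = G x) → ∀ x,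
        discreteDeriv l G (flipOn {i} x) = discreteDeriv l G x := by
      intro G hG x
      have hc : ∀ u : ℤˣ, Function.update (flipOn {i} x) l u = flipOn {i} (Function.update x l u) := by
        intro u
        funext m
        by_cases hm : m = l
        · subst hm; simp [flipOn, hne]
        · by_cases hmi : m = i
          · subst hmi; simp [flipOn, hm]
          · simp [flipOn, hm, hmi]
      unfold discreteDeriv
      rw [hc, hc, hG, hG]
    rw [← ex_ite_query i (fun x => discreteDeriv l F1 x ^ 2) (fun x => discreteDeriv l F2 x ^ 2)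
      (fun x => by simp only [inv F1 i1]) (fun x => by simp only [inv F2 i2])]
    congr 1
    funext x
    have h1 : discreteDeriv l F x = if x i = 1 then discreteDeriv l F1 x else discreteDeriv l F2 x := by
      unfold discreteDeriv
      rw [hF, hF, Function.update_of_ne hne.symm, Function.update_of_ne hne.symm]
      split_ifs <;> rfl
    rw [h1]
    split_ifs <;> rfl
  unfold tinf
  rw [← add_sum_erase _ _ (mem_univ i),
    ← add_sum_erase _ (fun l => ex (fun x => discreteDeriv l F1 x ^ 2)) (mem_univ i),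
    ← add_sum_erase _ (fun l => ex (fun x => discreteDeriv l F2 x ^ 2)) (mem_univ i),
    hi, hi1, hi2, sum_congr rfl hl, sum_add_distrib, ← mul_sum, ← mul_sum]
  ring

/-- an `L²` version of the OSSS inequality, vector valued: the covariance of a family of functions
computed by a common decision tree with another family -/
theorem l2_osss {n : ℕ} {ι : Type} [Fintype ι] {D : ℕ} {F : Cube n → ι → ℝ}
    (h : HasDTE D F) : ∀ (τ θ : ℝ) (g : ι → Cube n → ℝ), 0 ≤ τ → 0 < θ →
      (∀ i, ∑ j, ex (fun x => discreteDeriv i (g j) x ^ 2) ≤ τ) →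
      ∑ j, cov (fun x => F x j) (g j) ≤ θ / 2 * ∑ j, tinf (fun x => F x j) + D * τ / (2 * θ) := by
  induction h with
  | const D a F h =>
    intro τ θ g hτ hθ _
    have : ∀ j, cov (fun x => F x j) (g j) = 0 := by
      intro j
      unfold cov
      have h1 : (fun x => F x j) = fun _ => a j := by funext x; rw [h x]
      rw [h1, ex_const_mul, ex_const]; ring
    rw [Finset.sum_eq_zero (fun j _ => this j)]
    have h2 : 0 ≤ ∑ j, tinf (fun x => F x j) := sum_nonneg fun j _ => tinf_nonneg _
    positivity
  | node D i F F1 F2 _ _ hF i1 i2 ih1 ih2 =>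
    intro τ θ g hτ hθ hg
    have c1 := ih1 τ θ g hτ hθ hg
    have c2 := ih2 τ θ g hτ hθ hg
    have hF' : ∀ j x, F x j = if x i = 1 then F1 x j else F2 x j := by
      intro j x
      rw [hF x]
      split_ifs <;> rfl
    have i1' : ∀ j x, F1 (flipOn {i} x) j = F1 x j := fun j x => by rw [i1]
    have i2' : ∀ j x, F2 (flipOn {i} x) j = F2 x j := fun j x => by rw [i2]
    have hnode : ∀ j, cov (fun x => F x j) (g j) = (1 / 2) * cov (fun x => F1 x j) (g j)
        + (1 / 2) * cov (fun x => F2 x j) (g j)
        + (1 / 2) * ex (fun x => (F1 x j - F2 x j) * discreteDeriv i (g j) x) := fun j =>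
      cov_node i (fun x => F x j) (fun x => F1 x j) (fun x => F2 x j) (g j) (hF' j) (i1' j) (i2' j)
    have htinf : ∀ j, tinf (fun x => F x j) = (1 / 2) * tinf (fun x => F1 x j)
        + (1 / 2) * tinf (fun x => F2 x j) + (1 / 4) * ex (fun x => (F1 x j - F2 x j) ^ 2) :=
      fun j => tinf_node i (fun x => F x j) (fun x => F1 x j) (fun x => F2 x j)
        (hF' j) (i1' j) (i2' j)
    have c3 : ∑ j, (1 / 2) * ex (fun x => (F1 x j - F2 x j) * discreteDeriv i (g j) x)
        ≤ θ / 2 * ∑ j, (1 / 4) * ex (fun x => (F1 x j - F2 x j) ^ 2) + τ / (2 * θ) := by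
      have hpt : ∀ j, (1 / 2) * ex (fun x => (F1 x j - F2 x j) * discreteDeriv i (g j) x)
          ≤ θ / 2 * ((1 / 4) * ex (fun x => (F1 x j - F2 x j) ^ 2))
            + 1 / (2 * θ) * ex (fun x => discreteDeriv i (g j) x ^ 2) := by
        intro j
        rw [← ex_const_mul, ← ex_const_mul, ← ex_const_mul, ← ex_const_mul, ← ex_add]
        apply ex_mono
        intro x
        set a := F1 x j - F2 x j
        set b := discreteDeriv i (g j) x
        have h1 : θ / 2 * (1 / 4 * a ^ 2) + 1 / (2 * θ) * b ^ 2 - 1 / 2 * (a * b)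
            = (θ * a / 2 - b) ^ 2 / (2 * θ) := by
          field_simp; ring
        have h2 : 0 ≤ (θ * a / 2 - b) ^ 2 / (2 * θ) := by positivity
        linarith
      calc _ ≤ ∑ j, (θ / 2 * ((1 / 4) * ex (fun x => (F1 x j - F2 x j) ^ 2))
            + 1 / (2 * θ) * ex (fun x => discreteDeriv i (g j) x ^ 2)) :=
            sum_le_sum fun j _ => hpt j
        _ = θ / 2 * ∑ j, (1 / 4) * ex (fun x => (F1 x j - F2 x j) ^ 2)
            + 1 / (2 * θ) * ∑ j, ex (fun x => discreteDeriv i (g j) x ^ 2) := by
            rw [sum_add_distrib, mul_sum, mul_sum]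
        _ ≤ _ := by
            have h3 := mul_le_mul_of_nonneg_left (hg i) (by positivity : (0 : ℝ) ≤ 1 / (2 * θ))
            have h4 : 1 / (2 * θ) * τ = τ / (2 * θ) := by ring
            linarith
    have s1 : ∑ j, cov (fun x => F x j) (g j) = (1 / 2) * ∑ j, cov (fun x => F1 x j) (g j)
        + (1 / 2) * ∑ j, cov (fun x => F2 x j) (g j)
        + ∑ j, (1 / 2) * ex (fun x => (F1 x j - F2 x j) * discreteDeriv i (g j) x) := by
      rw [Finset.sum_congr rfl (fun j _ => hnode j), Finset.sum_add_distrib,
        Finset.sum_add_distrib, ← Finset.mul_sum, ← Finset.mul_sum]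
    have s2 : ∑ j, tinf (fun x => F x j) = (1 / 2) * ∑ j, tinf (fun x => F1 x j)
        + (1 / 2) * ∑ j, tinf (fun x => F2 x j)
        + ∑ j, (1 / 4) * ex (fun x => (F1 x j - F2 x j) ^ 2) := by
      rw [Finset.sum_congr rfl (fun j _ => htinf j), Finset.sum_add_distrib,
        Finset.sum_add_distrib, ← Finset.mul_sum, ← Finset.mul_sum]
    have e : ((D + 1 : ℕ) : ℝ) * τ / (2 * θ) = D * τ / (2 * θ) + τ / (2 * θ) := by
      push_cast; ring
    rw [s1, s2, e]
    set A1 := ∑ j, tinf (fun x => F1 x j)
    set A2 := ∑ j, tinf (fun x => F2 x j)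
    set A3 := ∑ j, (1 / 4) * ex (fun x => (F1 x j - F2 x j) ^ 2)
    have h5 : θ / 2 * (1 / 2 * A1 + 1 / 2 * A2 + A3)
        = 1 / 2 * (θ / 2 * A1) + 1 / 2 * (θ / 2 * A2) + θ / 2 * A3 := by ring
    rw [h5]
    linarith

/-- total influence of a Boolean function of block sensitivity at most `β` -/
lemma tinf_le {n : ℕ} {h : Cube n → ℝ} (h01 : ∀ x, h x = 0 ∨ h x = 1) {β : ℕ} (hbs : BSLe h β) :
    tinf h ≤ β / 2 * ex h := by
  classical
  -- sensitivity at an input
  have hsens : ∀ x, (univ.filter (fun l => h (flipOn {l} x) ≠ h x)).card ≤ β := by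
    intro x
    have h1 : ((univ.filter (fun l => h (flipOn {l} x) ≠ h x)).image
        (fun l => ({l} : Finset (Fin n)))).card
        = (univ.filter (fun l => h (flipOn {l} x) ≠ h x)).card :=
      card_image_of_injective _ singleton_injective
    rw [← h1]
    apply hbs x
    · intro B hB C hC hBC
      simp only [coe_image, Set.mem_image, mem_coe] at hB hC
      obtain ⟨i, _, rfl⟩ := hB
      obtain ⟨j, _, rfl⟩ := hC
      have : i ≠ j := fun h => hBC (by rw [h])
      simp [Function.onFun, this]
    · intro B hB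
      obtain ⟨i, hi, rfl⟩ := mem_image.mp hB
      exact (mem_filter.mp hi).2
  -- each coordinate
  have hcoord : ∀ l, ex (fun x => discreteDeriv l h x ^ 2)
      ≤ (1 / 2) * ex (fun x => h x * (if h (flipOn {l} x) ≠ h x then (1 : ℝ) else 0)) := by
    intro l
    have e1 : ∀ x, discreteDeriv l h x ^ 2 ≤ (1 / 4) * (h x * (if h (flipOn {l} x) ≠ h x then (1 : ℝ) else 0)
        + h (flipOn {l} x) * (if h (flipOn {l} (flipOn {l} x)) ≠ h (flipOn {l} x) then (1 : ℝ) else 0)) := by
      intro x
      have h2 := abs_sub_flip h l x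
      have h3 : discreteDeriv l h x ^ 2 = (h x - h (flipOn {l} x)) ^ 2 / 4 := by
        rw [← sq_abs (h x - _), h2, mul_pow, sq_abs]; ring
      rw [h3, flipOn_flipOn]
      rcases h01 x with a | a <;> rcases h01 (flipOn {l} x) with b | b <;> rw [a, b] <;> norm_num
    calc ex (fun x => discreteDeriv l h x ^ 2)
        ≤ ex (fun x => (1 / 4) * (h x * (if h (flipOn {l} x) ≠ h x then (1 : ℝ) else 0)
        + h (flipOn {l} x) * (if h (flipOn {l} (flipOn {l} x)) ≠ h (flipOn {l} x) then (1 : ℝ) else 0))) :=
          ex_mono e1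
      _ = _ := by
          rw [ex_const_mul, ex_add]
          have h4 := ex_flipOn {l} (fun x => h x * (if h (flipOn {l} x) ≠ h x then (1 : ℝ) else 0))
          rw [h4]; ring
  calc tinf h ≤ ∑ l, (1 / 2) * ex (fun x => h x * (if h (flipOn {l} x) ≠ h x then (1 : ℝ) else 0)) :=
        sum_le_sum fun l _ => hcoord l
    _ = (1 / 2) * ex (fun x => ∑ l, h x * (if h (flipOn {l} x) ≠ h x then (1 : ℝ) else 0)) := by
        rw [← mul_sum, ex_sum]
    _ ≤ (1 / 2) * ex (fun x => (β : ℝ) * h x) := by
        apply mul_le_mul_of_nonneg_left _ (by norm_num)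
        apply ex_mono
        intro x
        rw [← mul_sum]
        have h5 : ∑ l, (if h (flipOn {l} x) ≠ h x then (1 : ℝ) else 0)
            = ((univ.filter (fun l => h (flipOn {l} x) ≠ h x)).card : ℝ) := by
          rw [sum_boole]
        rw [h5, mul_comm]
        apply mul_le_mul_of_nonneg_right _ (by rcases h01 x with a | a <;> simp [a])
        exact_mod_cast hsens x
    _ = _ := by rw [ex_const_mul]; ring

end Pool.Agent.Helper24.FewDer
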