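import Pool.Agent.Helper24.FewDer.Defs

set_option linter.dupNamespace false

namespace Pool.Agent.Helper24.FewDer

open Finset Pool.Agent.Helper11.Cube Pool.Agent.Helper11.AA

/-- vector valued OSSS inequality -/
theorem vector_osss {n : ℕ} {ι : Type} [Fintype ι] {D : ℕ} {F : Cube n → ι → ℝ}
    (h : HasDTE D F) : ∀ (τ : ℝ) (g : ι → Cube n → ℝ), (∀ x j, 0 ≤ F x j ∧ F x j ≤ 1) → 0 ≤ τ →
      (∀ i, ∑ j, ex (fun x => |discreteDeriv i (g j) x|) ≤ τ) →
      ∑ j, cov (fun x => F x j) (g j) ≤ D * τ / 2 := by
  induction h with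
  | const D a F h =>
    intro τ g _ hτ _
    have : ∀ j, cov (fun x => F x j) (g j) = 0 := by
      intro j
      unfold cov
      have h1 : (fun x => F x j) = fun _ => a j := by funext x; rw [h x]
      rw [h1, ex_const_mul, ex_const]; ring
    rw [Finset.sum_eq_zero (fun j _ => this j)]
    positivity
  | node D i F F1 F2 _ _ hF i1 i2 ih1 ih2 =>
    intro τ g hB hτ hg
    have hB1 : ∀ x j, 0 ≤ F1 x j ∧ F1 x j ≤ 1 := by
      intro x j
      rcases Int.units_eq_one_or (x i) with h | h
      · have := hB x j; rw [hF x, if_pos h] at this; exact this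
      · have h2 : flipOn {i} x i = 1 := by simp [flipOn, h]
        have := hB (flipOn {i} x) j; rw [hF, if_pos h2, i1] at this; exact this
    have hB2 : ∀ x j, 0 ≤ F2 x j ∧ F2 x j ≤ 1 := by
      intro x j
      rcases Int.units_eq_one_or (x i) with h | h
      · have h2 : ¬ flipOn {i} x i = 1 := by simp [flipOn, h]
        have := hB (flipOn {i} x) j; rw [hF, if_neg h2, i2] at this; exact this
      · have h2 : ¬ x i = 1 := by rw [h]; decide
        have := hB x j; rw [hF x, if_neg h2] at this; exact this
    have c1 := ih1 τ g hB1 hτ hg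
    have c2 := ih2 τ g hB2 hτ hg
    have c3 : ∑ j, ex (fun x => (F1 x j - F2 x j) * discreteDeriv i (g j) x) ≤ τ := by
      refine le_trans (Finset.sum_le_sum fun j _ => ?_) (hg i)
      apply ex_mono
      intro x
      refine (le_abs_self _).trans ?_
      rw [abs_mul]
      have h1 : |F1 x j - F2 x j| ≤ 1 := by
        rw [abs_le]
        have a1 := hB1 x j
        have a2 := hB2 x j
        constructor <;> linarith [a1.1, a1.2, a2.1, a2.2]
      have h2 := abs_nonneg (discreteDeriv i (g j) x)
      nlinarith
    have hnode : ∀ j, cov (fun x => F x j) (g j) = (1 / 2) * cov (fun x => F1 x j) (g j)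
        + (1 / 2) * cov (fun x => F2 x j) (g j)
        + (1 / 2) * ex (fun x => (F1 x j - F2 x j) * discreteDeriv i (g j) x) := by
      intro j
      apply cov_node i (fun x => F x j) (fun x => F1 x j) (fun x => F2 x j) (g j)
      · intro x
        show F x j = _
        rw [hF x]
        split_ifs <;> rfl
      · intro x
        show F1 (flipOn {i} x) j = F1 x j
        rw [i1]
      · intro x
        show F2 (flipOn {i} x) j = F2 x j
        rw [i2]
    rw [Finset.sum_congr rfl (fun j _ => hnode j), Finset.sum_add_distrib,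
      Finset.sum_add_distrib, ← Finset.mul_sum, ← Finset.mul_sum, ← Finset.mul_sum]
    push_cast
    linarith

end Pool.Agent.Helper24.FewDer
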