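import Pool.Agent.Helper24.FewDer.Defs

/-!
Module TREE: a common decision tree for a family of Boolean functions of low block sensitivity.
-/

set_option linter.dupNamespace false
set_option autoImplicit false

namespace Pool.Agent.Helper24.FewDer

open Finset Pool.Agent.Helper11.Cube Pool.Agent.Helper11.AA

lemma tree_mono {n : ℕ} {E : Type} {D : ℕ} {F : Cube n → E} (h : HasDTE D F) :
    ∀ {D' : ℕ}, D ≤ D' → HasDTE D' F := by
  induction h with
  | const D a F h => intro D' _; exact HasDTE.const D' a F h
  | node D i F F1 F2 _ _ hF i1 i2 ih1 ih2 =>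
    intro D' hD'
    obtain ⟨E, rfl⟩ : ∃ E, D' = E + 1 := ⟨D' - 1, by omega⟩
    exact HasDTE.node E i F F1 F2 (ih1 (by omega)) (ih2 (by omega)) hF i1 i2

/-- Querying all coordinates of `C`. -/
lemma tree_query {n : ℕ} {E : Type} {F : Cube n → E} {D : ℕ} (C : Finset (Fin n)) :
    ∀ (Q : Finset (Fin n)) (z : Cube n), Disjoint C Q →
      (∀ z' : Cube n, (∀ i ∈ Q, z' i = z i) → HasDTE D (fun x => F (merge (Q ∪ C) z' x))) →
        HasDTE (D + C.card) (fun x => F (merge Q z x)) := by
  induction C using Finset.induction_on with
  | empty =>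
    intro Q z _ h
    have := h z (fun i _ => rfl)
    simpa using this
  | insert i C hi ih =>
    intro Q z hdisj h
    have hiQ : i ∉ Q := by
      rw [Finset.disjoint_insert_left] at hdisj
      exact hdisj.1
    have hCQ : Disjoint C (insert i Q) := by
      rw [Finset.disjoint_insert_left] at hdisj
      rw [Finset.disjoint_insert_right]
      exact ⟨hi, hdisj.2⟩
    have sub : ∀ u : ℤˣ, HasDTE (D + C.card)
        (fun x => F (merge (insert i Q) (Function.update z i u) x)) := by
      intro u
      apply ih (insert i Q) (Function.update z i u) hCQ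
      intro z' hz'
      have h1 : insert i Q ∪ C = Q ∪ insert i C := by
        ext j; simp only [Finset.mem_union, Finset.mem_insert]; tauto
      rw [h1]
      apply h z'
      intro j hj
      rw [hz' j (Finset.mem_insert_of_mem hj), Function.update_of_ne]
      rintro rfl
      exact hiQ hj
    rw [Finset.card_insert_of_notMem hi, ← Nat.add_assoc]
    refine HasDTE.node _ i _ _ _ (sub 1) (sub (-1)) ?_ ?_ ?_
    · intro x
      have hm : ∀ u : ℤˣ, x i = u → merge Q z x = merge (insert i Q) (Function.update z i u) x := by
        intro u hu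
        funext j
        unfold merge
        by_cases hj : j = i
        · subst hj; simp [hiQ, hu]
        · simp [hj]
      split_ifs with hx
      · exact congrArg F (hm 1 hx)
      · have hx' : x i = -1 := by
          rcases Int.units_eq_one_or (x i) with h | h
          · exact absurd h hx
          · exact h
        exact congrArg F (hm (-1) hx')
    · intro x
      congr 1
      funext j
      unfold merge flipOn
      by_cases hj : j = i
      · subst hj; simp
      · simp [hj]
    · intro x
      congr 1
      funext j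
      unfold merge flipOn
      by_cases hj : j = i
      · subst hj; simp
      · simp [hj]

/-- at inputs consistent with `(Q, z)` with value `v` there are at most `b` disjoint sensitive
blocks outside `Q` -/
def TreeBSv {n : ℕ} (F : Cube n → ℝ) (v : ℝ) (Q : Finset (Fin n)) (z : Cube n) (b : ℕ) : Prop :=
  ∀ y : Cube n, (∀ i ∈ Q, y i = z i) → F y = v → ∀ C : Finset (Finset (Fin n)),
    (C : Set (Finset (Fin n))).PairwiseDisjoint id → (∀ A ∈ C, Disjoint A Q ∧ Sens F y A) →
      C.card ≤ b

/-- if two inputs of the subcube have different values then `1 ≤ b` -/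
lemma tree_one_le {n : ℕ} {F : Cube n → ℝ} {v : ℝ} {Q : Finset (Fin n)} {z : Cube n} {b : ℕ}
    (hB : TreeBSv F v Q z b) {y w : Cube n} (hy : ∀ i ∈ Q, y i = z i) (hw : ∀ i ∈ Q, w i = z i)
    (hv : F y = v) (hne : F w ≠ F y) : 1 ≤ b := by
  have h := hB y hy hv {univ.filter (fun i => w i ≠ y i)} (by simp) (by
    intro A hA
    rw [Finset.mem_singleton] at hA
    subst hA
    refine ⟨?_, ?_⟩
    · rw [Finset.disjoint_left]
      intro i hi hiQ
      exact (Finset.mem_filter.mp hi).2 (by rw [hw i hiQ, hy i hiQ])
    · unfold Sens; rw [flipOn_diff]; exact hne)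
  simpa using h

/-- restricting to a smaller subcube -/
lemma tree_restrict {n : ℕ} {F : Cube n → ℝ} {v : ℝ} {Q U : Finset (Fin n)} {z z' : Cube n}
    {b : ℕ} (hB : TreeBSv F v Q z b) (hz : ∀ i ∈ Q, z' i = z i) : TreeBSv F v (Q ∪ U) z' b := by
  intro y hy hv C hC hA
  refine hB y (fun i hi => ?_) hv C hC (fun A hAC => ?_)
  · rw [hy i (Finset.mem_union_left _ hi), hz i hi]
  · have h1 := (hA A hAC).1
    rw [Finset.disjoint_union_right] at h1
    exact ⟨h1.1, (hA A hAC).2⟩

/-- one more block -/
lemma tree_gain {n : ℕ} {F : Cube n → ℝ} {v : ℝ} {Q U : Finset (Fin n)} {z z' : Cube n}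
    {b : ℕ} (hB : TreeBSv F v Q z b) (hz : ∀ i ∈ Q, z' i = z i) (hUQ : Disjoint U Q)
    (y : Cube n) (hval : ∀ w : Cube n, (∀ i ∈ Q, w i = z i) → (∀ i ∈ U, w i = y i) → F w ≠ v) :
    TreeBSv F v (Q ∪ U) z' (b - 1) := by
  intro w hw hv C hC hA
  have hwQ : ∀ i ∈ Q, w i = z i := by
    intro i hi
    rw [hw i (Finset.mem_union_left _ hi), hz i hi]
  set A := U.filter (fun i => w i ≠ y i) with hAdef
  have hAU : A ⊆ U := Finset.filter_subset _ _
  have hAQ : Disjoint A Q := Finset.disjoint_of_subset_left hAU hUQ
  have hne : F (flipOn A w) ≠ v := by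
    apply hval
    · intro i hi
      have : i ∉ A := fun h => (Finset.disjoint_left.mp hAQ h) hi
      simp [flipOn, this, hwQ i hi]
    · intro i hi
      by_cases hiy : w i = y i
      · have : i ∉ A := fun h => (Finset.mem_filter.mp h).2 hiy
        simp [flipOn, this, hiy]
      · have hmem : i ∈ A := Finset.mem_filter.mpr ⟨hi, hiy⟩
        simp only [flipOn, hmem, if_true]
        rcases Int.units_eq_one_or (y i) with h1 | h1 <;>
          rcases Int.units_eq_one_or (w i) with h2 | h2
        · exact absurd (h2.trans h1.symm) hiy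
        · rw [h1, h2]; simp
        · rw [h1, h2]
        · exact absurd (h2.trans h1.symm) hiy
  have hAs : Sens F w A := by unfold Sens; rw [hv]; exact hne
  have hAB : ∀ B ∈ C, Disjoint A B := by
    intro B hB
    have h1 := (hA B hB).1
    rw [Finset.disjoint_union_right] at h1
    exact (Finset.disjoint_of_subset_right hAU h1.2).symm
  have hnot : A ∉ C := by
    intro hmem
    have := hAB A hmem
    rw [disjoint_self] at this
    have h2 := hAs.nonempty
    rw [this] at h2
    exact absurd h2 (by simp)
  have hcount := hB w hwQ hv (insert A C) (by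
      rw [Finset.coe_insert]
      apply Set.PairwiseDisjoint.insert hC
      intro B hB _
      exact hAB B hB) (by
      intro B hB
      rcases Finset.mem_insert.mp hB with rfl | hB
      · exact ⟨hAQ, hAs⟩
      · refine ⟨?_, (hA B hB).2⟩
        have h1 := (hA B hB).1
        rw [Finset.disjoint_union_right] at h1
        exact h1.1)
  rw [Finset.card_insert_of_notMem hnot] at hcount
  omega

theorem tree_main {n : ℕ} {ι : Type} [Fintype ι] (h : ι → Cube n → ℝ)
    (h01 : ∀ j x, h j x = 0 ∨ h j x = 1) (β N : ℕ) (hbs : ∀ j, BSLe (h j) β)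
    (hN : ∀ x, (univ.filter (fun j => h j x = 1)).card ≤ N) :
    ∀ (R : ℕ) (Q : Finset (Fin n)) (z : Cube n),
      (∀ j, ∃ b0 b1 : ℕ, b0 + b1 ≤ R ∧ TreeBSv (h j) 0 Q z b0 ∧ TreeBSv (h j) 1 Q z b1) →
        HasDTE (R * (N * (β * β))) (fun x j => h j (merge Q z x)) := by
  classical
  intro R
  induction R with
  | zero =>
    intro Q z hyp
    refine HasDTE.const _ (fun j => h j z) _ ?_
    intro x
    funext j
    by_contra hne
    obtain ⟨b0, b1, hb, hB0, hB1⟩ := hyp j
    rcases h01 j z with hz | hz
    · have := tree_one_le hB0 (y := z) (w := merge Q z x) (fun i _ => rfl)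
        (merge_agree Q z x) hz hne
      omega
    · have := tree_one_le hB1 (y := z) (w := merge Q z x) (fun i _ => rfl)
        (merge_agree Q z x) hz hne
      omega
  | succ R ih =>
    intro Q z hyp
    -- an input of the subcube with the largest number of active functions
    obtain ⟨x0, -, hx0⟩ := Finset.exists_max_image (Finset.univ : Finset (Cube n))
      (fun x => (univ.filter (fun j => h j (merge Q z x) = 1)).card) Finset.univ_nonempty
    set y := merge Q z x0 with hy
    have hyQ : ∀ i ∈ Q, y i = z i := merge_agree Q z x0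
    have hmax : ∀ w : Cube n, (∀ i ∈ Q, w i = z i) →
        (univ.filter (fun j => h j w = 1)).card ≤ (univ.filter (fun j => h j y = 1)).card := by
      intro w hw
      have h1 : merge Q z w = w := by
        funext i
        unfold merge
        split_ifs with hi
        · exact (hw i hi).symm
        · rfl
      have h2 := hx0 w (Finset.mem_univ _)
      simp only [h1] at h2
      exact h2
    have hcert : ∀ j : ι, ∃ C : Finset (Fin n), Disjoint C Q ∧ C.card ≤ β * β ∧
        ∀ w : Cube n, (∀ i ∈ Q, w i = z i) → (∀ i ∈ C, w i = y i) → h j w = h j y := by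
      intro j
      refine exists_certificate (z := z) ?_ y hyQ
      intro v _ C hC hA
      exact hbs j v C hC (fun A hAC => (hA A hAC).2)
    choose C hCQ hCc hCv using hcert
    set A := univ.filter (fun j => h j y = 1) with hA
    set U := A.biUnion C with hU
    have hUQ : Disjoint U Q := by
      rw [hU, Finset.disjoint_biUnion_left]
      intro j _
      exact hCQ j
    have hUc : U.card ≤ N * (β * β) := by
      calc U.card ≤ ∑ j ∈ A, (C j).card := Finset.card_biUnion_le
        _ ≤ ∑ _j ∈ A, β * β := Finset.sum_le_sum fun j _ => hCc j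
        _ = A.card * (β * β) := by rw [Finset.sum_const, smul_eq_mul]
        _ ≤ N * (β * β) := Nat.mul_le_mul_right _ (hN y)
    have hq : HasDTE (R * (N * (β * β)) + U.card) (fun x => (fun v j => h j v) (merge Q z x)) := by
      refine tree_query (F := fun v j => h j v) U Q z hUQ ?_
      intro z' hz'
      refine ih (Q ∪ U) z' ?_
      intro j
      obtain ⟨b0, b1, hb, hB0, hB1⟩ := hyp j
      by_cases hconst : ∀ v w : Cube n, (∀ i ∈ Q, v i = z i) → (∀ i ∈ Q, w i = z i) → h j v = h j w
      · have hzero : ∀ v : ℝ, TreeBSv (h j) v (Q ∪ U) z' 0 := by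
          intro v w hw _ F hF hFs
          rw [Nat.le_zero, Finset.card_eq_zero]
          by_contra hne
          obtain ⟨B, hB⟩ := Finset.nonempty_iff_ne_empty.2 hne
          obtain ⟨h1, h2⟩ := hFs B hB
          rw [Finset.disjoint_union_right] at h1
          have hwQ : ∀ i ∈ Q, w i = z i := by
            intro i hi
            rw [hw i (Finset.mem_union_left _ hi), hz' i hi]
          refine h2 (hconst _ _ ?_ hwQ)
          intro i hi
          have : i ∉ B := fun hh => (Finset.disjoint_left.mp h1.1 hh) hi
          simp [flipOn, this, hwQ i hi]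
        exact ⟨0, 0, by omega, hzero 0, hzero 1⟩
      · push Not at hconst
        obtain ⟨v, w, hv, hw, hne⟩ := hconst
        have hex : 1 ≤ b0 ∧ 1 ≤ b1 := by
          rcases h01 j v with h1 | h1 <;> rcases h01 j w with h2 | h2
          · exact absurd (h1.trans h2.symm) hne
          · exact ⟨tree_one_le hB0 hv hw h1 (Ne.symm hne), tree_one_le hB1 hw hv h2 hne⟩
          · exact ⟨tree_one_le hB0 hw hv h2 hne, tree_one_le hB1 hv hw h1 (Ne.symm hne)⟩
          · exact absurd (h1.trans h2.symm) hne
        by_cases hj : j ∈ A
        · refine ⟨b0 - 1, b1, by omega, ?_, tree_restrict hB1 hz'⟩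
          refine tree_gain hB0 hz' hUQ y ?_
          intro u hu huU
          have h3 : h j u = h j y := hCv j u hu (fun i hi =>
            huU i (Finset.mem_biUnion.2 ⟨j, hj, hi⟩))
          rw [h3, (Finset.mem_filter.1 hj).2]
          norm_num
        · refine ⟨b0, b1 - 1, by omega, tree_restrict hB0 hz', ?_⟩
          refine tree_gain hB1 hz' hUQ y ?_
          intro u hu huU hju
          have hsub : insert j A ⊆ univ.filter (fun j => h j u = 1) := by
            intro k hk
            rw [Finset.mem_filter]
            refine ⟨Finset.mem_univ _, ?_⟩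
            rcases Finset.mem_insert.1 hk with rfl | hk
            · exact hju
            · rw [hCv k u hu (fun i hi => huU i (Finset.mem_biUnion.2 ⟨k, hk, hi⟩))]
              exact (Finset.mem_filter.1 hk).2
          have h4 := Finset.card_le_card hsub
          rw [Finset.card_insert_of_notMem hj] at h4
          have h5 := hmax u hu
          omega
    refine tree_mono hq ?_
    calc R * (N * (β * β)) + U.card ≤ R * (N * (β * β)) + N * (β * β) := by omega
      _ = (R + 1) * (N * (β * β)) := by ring

/-- a common decision tree for a family of Boolean functions -/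
theorem common_tree {n : ℕ} {ι : Type} [Fintype ι] (h : ι → Cube n → ℝ)
    (h01 : ∀ j x, h j x = 0 ∨ h j x = 1) (β N : ℕ) (hbs : ∀ j, BSLe (h j) β)
    (hN : ∀ x, (univ.filter (fun j => h j x = 1)).card ≤ N) :
    HasDTE (2 * β ^ 3 * N) (fun x j => h j x) := by
  have h1 := tree_main h h01 β N hbs hN (2 * β) ∅ (fun _ => 1) (by
    intro j
    refine ⟨β, β, by omega, ?_, ?_⟩
    · intro y _ _ C hC hA
      exact hbs j y C hC (fun A hAC => (hA A hAC).2)
    · intro y _ _ C hC hA
      exact hbs j y C hC (fun A hAC => (hA A hAC).2))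
  have h2 : (fun (x : Cube n) (j : ι) => h j (merge ∅ (fun _ => 1) x)) = fun x j => h j x := by
    funext x j
    congr 1
  rw [h2] at h1
  refine tree_mono h1 ?_
  apply le_of_eq; ring

end Pool.Agent.Helper24.FewDer
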