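import Pool.Agent.Helper24.FewDer.Osssv
import Pool.Agent.Helper24.FewDer.Tree
import Pool.Agent.Helper24.FewDer.Level
import Pool.Agent.Helper24.FewDer.Inf

set_option linter.dupNamespace false

namespace Pool.Agent.Helper24.FewDer

open Finset Pool.Agent.Helper11.Cube Pool.Agent.Helper11.AA

theorem scale_bound {n d k : ℕ} {f : Cube n → ℝ} (hf : DegLE f d) (J : Finset (Fin n))
    {lam mu : ℝ} (hlam : 0 < lam) (hM : maxDerivNorm f ≤ lam) (hmu : 2 * lam ≤ mu)
    (hk : ∀ j ∈ J, {t : ℝ | lam < t ∧ ∃ x, |discreteDeriv j f x| = t}.ncard ≤ k) :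
    ∑ j ∈ J, ex (fun x => if 2 * mu < |discreteDeriv j f x| then (1 : ℝ) else 0)
      ≤ (128 / 3) * (rr k : ℝ) ^ 6 * ((k : ℝ) + 1) ^ 2 * (d : ℝ) ^ 9 * supNorm f * lam ^ 2 / mu ^ 3 := by
  classical
  have hmu0 : 0 < mu := by linarith
  have hK0 : 0 ≤ supNorm f := supNorm_nonneg f
  have hM0 : 0 ≤ maxDerivNorm f := maxDerivNorm_nonneg f
  have hlev := fun j (hj : j ∈ J) => level (degLE_deriv hf j) hlam (by linarith : lam ≤ mu) (hk j hj)
  choose! H hH01 hHlow hHhigh hHgap hHbs using hlev
  set h : Fin n → Cube n → ℝ := fun j x => if j ∈ J then H j x else 0 with hh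
  have hJ : ∀ j ∈ J, h j = H j := by intro j hj; funext x; simp [hh, hj]
  have hnJ : ∀ j, j ∉ J → h j = fun _ => 0 := by intro j hj; funext x; simp [hh, hj]
  have h01 : ∀ j x, h j x = 0 ∨ h j x = 1 := by
    intro j x
    by_cases hj : j ∈ J
    · rw [hJ j hj]; exact hH01 j hj x
    · rw [hnJ j hj]; exact Or.inl rfl
  set β : ℕ := 2 * (rr k * d) ^ 2 with hβ
  have hbs : ∀ j, BSLe (h j) β := by
    intro j
    by_cases hj : j ∈ J
    · rw [hJ j hj]; exact hHbs j hj
    · rw [hnJ j hj]
      intro y C _ hC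
      rcases C.eq_empty_or_nonempty with rfl | ⟨A, hA⟩
      · simp
      · exact absurd rfl (hC A hA)
  set N : ℕ := ⌊2 * (d : ℝ) ^ 2 * supNorm f / mu⌋₊ with hN
  have hactive : ∀ x, (univ.filter (fun j => h j x = 1)).card ≤ N := by
    intro x
    apply Nat.le_floor
    rw [le_div_iff₀ hmu0]
    calc ((univ.filter (fun j => h j x = 1)).card : ℝ) * mu
        = ∑ _j ∈ univ.filter (fun j => h j x = 1), mu := by rw [sum_const, nsmul_eq_mul]
      _ ≤ ∑ j ∈ univ.filter (fun j => h j x = 1), |discreteDeriv j f x| := by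
          apply sum_le_sum
          intro j hj
          have hj1 := (mem_filter.1 hj).2
          by_cases hjJ : j ∈ J
          · rw [hJ j hjJ] at hj1
            exact (hHlow j hjJ x hj1).le
          · rw [hnJ j hjJ] at hj1
            norm_num at hj1
      _ ≤ ∑ j, |discreteDeriv j f x| :=
          sum_le_sum_of_subset_of_nonneg (filter_subset _ _) (fun _ _ _ => abs_nonneg _)
      _ ≤ 2 * (d : ℝ) ^ 2 * supNorm f := sum_abs_deriv_le hf (le_supNorm f) x
  have hNle : (N : ℝ) ≤ 2 * (d : ℝ) ^ 2 * supNorm f / mu := Nat.floor_le (by positivity)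
  have tree := common_tree h h01 β N hbs hactive
  set g : ℝ := mu / ((k : ℝ) + 1) with hg
  have hg0 : 0 < g := by positivity
  set τ : ℝ := 2 / g ^ 2 * (d * lam ^ 2) with hτ
  have hinf : ∀ i, ∑ j, ex (fun x => |discreteDeriv i (h j) x|) ≤ τ := by
    intro i
    have hpt : ∀ j x, |discreteDeriv i (h j) x|
        ≤ 2 / g ^ 2 * (discreteDeriv i (discreteDeriv j f) x) ^ 2 := by
      intro j x
      have hnn : 0 ≤ 2 / g ^ 2 * (discreteDeriv i (discreteDeriv j f) x) ^ 2 := by positivity
      by_cases hj : j ∈ J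
      · rw [hJ j hj]
        have e0 : discreteDeriv i (H j) x
            = (H j (Function.update x i 1) - H j (Function.update x i (-1))) / 2 := rfl
        have e1 : discreteDeriv i (discreteDeriv j f) x
            = (discreteDeriv j f (Function.update x i 1)
              - discreteDeriv j f (Function.update x i (-1))) / 2 := rfl
        by_cases heq : H j (Function.update x i 1) = H j (Function.update x i (-1))
        · rw [e0, heq]; simpa using hnn
        · have hgap := hHgap j hj _ _ heq
          have habs : |discreteDeriv i (H j) x| ≤ 1 / 2 := by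
            rw [e0, abs_le]
            rcases hH01 j hj (Function.update x i 1) with h1 | h1 <;>
              rcases hH01 j hj (Function.update x i (-1)) with h2 | h2 <;>
              rw [h1, h2] <;> constructor <;> norm_num
          have hsq : g ^ 2 / 4 ≤ (discreteDeriv i (discreteDeriv j f) x) ^ 2 := by
            rw [e1]
            have h3 : g ^ 2 ≤ (discreteDeriv j f (Function.update x i 1)
              - discreteDeriv j f (Function.update x i (-1))) ^ 2 := by
              rw [← sq_abs (_ - _)]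
              exact pow_le_pow_left₀ hg0.le hgap 2
            have h4 : ∀ a : ℝ, (a / 2) ^ 2 = a ^ 2 / 4 := fun a => by ring
            rw [h4]
            linarith
          calc |discreteDeriv i (H j) x| ≤ 1 / 2 := habs
            _ = 2 / g ^ 2 * (g ^ 2 / 4) := by field_simp; norm_num
            _ ≤ _ := mul_le_mul_of_nonneg_left hsq (by positivity)
      · rw [hnJ j hj]
        have e0 : discreteDeriv i (fun _ : Cube n => (0 : ℝ)) x = 0 := by
          unfold discreteDeriv; simp
        rw [e0, abs_zero]; exact hnn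
    calc ∑ j, ex (fun x => |discreteDeriv i (h j) x|)
        ≤ ∑ j, 2 / g ^ 2 * ex (fun x => (discreteDeriv i (discreteDeriv j f) x) ^ 2) := by
          apply sum_le_sum
          intro j _
          rw [← ex_const_mul]
          exact ex_mono (hpt j)
      _ = 2 / g ^ 2 * ∑ j, ex (fun x => (discreteDeriv i (discreteDeriv j f) x) ^ 2) := by
          rw [mul_sum]
      _ ≤ 2 / g ^ 2 * (d * maxDerivNorm f ^ 2) :=
          mul_le_mul_of_nonneg_left (sum_second_le hf i) (by positivity)
      _ ≤ 2 / g ^ 2 * (d * lam ^ 2) := by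
          apply mul_le_mul_of_nonneg_left _ (by positivity)
          apply mul_le_mul_of_nonneg_left _ (by positivity)
          exact pow_le_pow_left₀ hM0 hM 2
  have hos := vector_osss tree τ h (fun x j => by
    rcases h01 j x with e | e <;> simp only [e] <;> norm_num) (by positivity) hinf
  -- variances
  have hcov : ∀ j, cov (fun x => h j x) (h j) = ex (h j) - ex (h j) ^ 2 := by
    intro j
    unfold cov
    have e : (fun x => h j x * h j x) = h j := by
      funext x
      rcases h01 j x with e | e <;> rw [e] <;> norm_num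
    rw [e]; ring
  have hex0 : ∀ j, 0 ≤ ex (h j) := fun j => ex_nonneg (fun x => by
    rcases h01 j x with e | e <;> rw [e] <;> norm_num)
  have hsmall : ∀ j, ex (h j) ≤ 1 / 4 := by
    intro j
    by_cases hj : j ∈ J
    · have h1 : ex (h j) ≤ ex (fun x => 1 / mu ^ 2 * discreteDeriv j f x ^ 2) := by
        apply ex_mono
        intro x
        rw [hJ j hj]
        rcases hH01 j hj x with e | e
        · rw [e]; positivity
        · rw [e]
          have h2 := hHlow j hj x e
          have h3 : mu ^ 2 ≤ discreteDeriv j f x ^ 2 := by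
            rw [← sq_abs (discreteDeriv j f x)]
            exact pow_le_pow_left₀ hmu0.le h2.le 2
          rw [one_div, ← div_eq_inv_mul, le_div_iff₀ (by positivity)]
          linarith
      rw [ex_const_mul, ← derivNorm_sq] at h1
      have h4 : derivNorm j f ^ 2 ≤ lam ^ 2 :=
        pow_le_pow_left₀ (derivNorm_nonneg f j) ((derivNorm_le f j).trans hM) 2
      have h5 : (2 * lam) ^ 2 ≤ mu ^ 2 := pow_le_pow_left₀ (by positivity) hmu 2
      calc ex (h j) ≤ 1 / mu ^ 2 * derivNorm j f ^ 2 := h1
        _ ≤ 1 / mu ^ 2 * (mu ^ 2 / 4) := by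
            apply mul_le_mul_of_nonneg_left _ (by positivity)
            nlinarith
        _ = 1 / 4 := by field_simp
    · rw [hnJ j hj, ex_const]; norm_num
  have hcov' : ∀ j, 3 / 4 * ex (h j) ≤ cov (fun x => h j x) (h j) := by
    intro j
    rw [hcov j]
    nlinarith [hex0 j, hsmall j]
  have hsum : 3 / 4 * ∑ j ∈ J, ex (fun x => if 2 * mu < |discreteDeriv j f x| then (1 : ℝ) else 0)
      ≤ ∑ j, cov (fun x => h j x) (h j) := by
    rw [mul_sum]
    calc ∑ j ∈ J, 3 / 4 * ex (fun x => if 2 * mu < |discreteDeriv j f x| then (1 : ℝ) else 0)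
        ≤ ∑ j ∈ J, 3 / 4 * ex (h j) := by
          apply sum_le_sum
          intro j hj
          apply mul_le_mul_of_nonneg_left _ (by norm_num)
          apply ex_mono
          intro x
          split_ifs with hx
          · rw [hJ j hj, hHhigh j hj x hx]
          · rcases h01 j x with e | e <;> rw [e] <;> norm_num
      _ ≤ ∑ j, 3 / 4 * ex (h j) := by
          apply sum_le_sum_of_subset_of_nonneg (subset_univ _)
          intro j _ _
          have := hex0 j
          positivity
      _ ≤ _ := sum_le_sum (fun j _ => hcov' j)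
  have hfin := hsum.trans hos
  have hd9 : ((2 * β ^ 3 * N : ℕ) : ℝ) * τ / 2
      ≤ 3 / 4 * ((128 / 3) * (rr k : ℝ) ^ 6 * ((k : ℝ) + 1) ^ 2 * (d : ℝ) ^ 9 * supNorm f * lam ^ 2
        / mu ^ 3) := by
    have e1 : ((2 * β ^ 3 * N : ℕ) : ℝ) = 16 * ((rr k : ℝ) * d) ^ 6 * N := by
      rw [hβ]; push_cast; ring
    have e2 : τ = 2 * ((k : ℝ) + 1) ^ 2 / mu ^ 2 * (d * lam ^ 2) := by
      rw [hτ, hg]; field_simp
    rw [e1, e2]
    calc 16 * ((rr k : ℝ) * d) ^ 6 * N * (2 * ((k : ℝ) + 1) ^ 2 / mu ^ 2 * (d * lam ^ 2)) / 2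
        = (16 * ((rr k : ℝ) * d) ^ 6 * ((k : ℝ) + 1) ^ 2 / mu ^ 2 * (d * lam ^ 2)) * N := by ring
      _ ≤ (16 * ((rr k : ℝ) * d) ^ 6 * ((k : ℝ) + 1) ^ 2 / mu ^ 2 * (d * lam ^ 2))
          * (2 * (d : ℝ) ^ 2 * supNorm f / mu) :=
          mul_le_mul_of_nonneg_left hNle (by positivity)
      _ = _ := by field_simp; ring
  have := hfin.trans hd9
  linarith

end Pool.Agent.Helper24.FewDer
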