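import Pool.Agent.Helper24.FewDer.Osssl2
import Pool.Agent.Helper24.FewDer.Tree
import Pool.Agent.Helper24.FewDer.Inf

set_option linter.dupNamespace false

namespace Pool.Agent.Helper24.FewDer

open Finset Pool.Agent.Helper11.Cube Pool.Agent.Helper11.AA

/-- the ramp which vanishes up to `w` and equals `1` from `2 w` on -/
noncomputable def ramp (w u : ℝ) : ℝ := min 1 (max 0 ((u - w) / w))

lemma ramp_nonneg (w u : ℝ) : 0 ≤ ramp w u := le_min zero_le_one (le_max_left _ _)

lemma ramp_le_one (w u : ℝ) : ramp w u ≤ 1 := min_le_left _ _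

lemma ramp_of_le {w u : ℝ} (hw : 0 < w) (h : u ≤ w) : ramp w u = 0 := by
  unfold ramp
  have h1 : (u - w) / w ≤ 0 := div_nonpos_of_nonpos_of_nonneg (by linarith) (by linarith)
  rw [max_eq_left h1]
  exact min_eq_right zero_le_one

lemma ramp_of_ge {w u : ℝ} (hw : 0 < w) (h : 2 * w ≤ u) : ramp w u = 1 := by
  unfold ramp
  have h1 : 1 ≤ (u - w) / w := by rw [le_div_iff₀ hw]; linarith
  rw [max_eq_right (by linarith)]
  exact min_eq_left h1

lemma ramp_lipschitz {w : ℝ} (hw : 0 < w) (u v : ℝ) : |ramp w u - ramp w v| ≤ |u - v| / w := by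
  unfold ramp
  have h1 : |min 1 (max 0 ((u - w) / w)) - min 1 (max 0 ((v - w) / w))|
      ≤ |max 0 ((u - w) / w) - max 0 ((v - w) / w)| := by
    have := abs_min_sub_min_le_max 1 (max 0 ((u - w) / w)) 1 (max 0 ((v - w) / w))
    simpa using this
  have h2 : |max 0 ((u - w) / w) - max 0 ((v - w) / w)|
      ≤ |(u - w) / w - (v - w) / w| := by
    have := abs_max_sub_max_le_max 0 ((u - w) / w) 0 ((v - w) / w)
    simpa using this
  have h3 : |(u - w) / w - (v - w) / w| = |u - v| / w := by
    rw [← sub_div, abs_div, abs_of_pos hw]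
    congr 1
    congr 1
    ring
  linarith

/-- a Boolean function of block sensitivity at most `β` separating the levels `t` and `K t` of
`|g|` -/
def Sep {n : ℕ} (g : Cube n → ℝ) (K t : ℝ) (β : ℕ) : Prop :=
  ∃ h : Cube n → ℝ, (∀ x, h x = 0 ∨ h x = 1) ∧ (∀ x, h x = 1 → t < |g x|) ∧
    (∀ x, K * t < |g x| → h x = 1) ∧ BSLe h β

theorem scale2 {n d β : ℕ} (hβ1 : 1 ≤ β) {f : Cube n → ℝ} (hf : DegLE f d) (J : Finset (Fin n))
    {lam t K : ℝ} (hlam : 0 < lam) (hM : maxDerivNorm f ≤ lam) (ht : 2 * lam ≤ t) (hK1 : 1 ≤ K)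
    (hsep : ∀ j ∈ J, Sep (discreteDeriv j f) K t β) :
    (2 * K * t) ^ 2 * ∑ j ∈ J, ex (fun x => if 2 * K * t < |discreteDeriv j f x| then (1 : ℝ) else 0)
      ≤ 1 / 2 * (t ^ 2 * ∑ j ∈ J, ex (fun x => if t < |discreteDeriv j f x| then (1 : ℝ) else 0))
        + (256 / 9) * K ^ 2 * ((β : ℝ) ^ 4 * (d : ℝ) ^ 3 * supNorm f) * lam ^ 2 / t := by
  classical
  have ht0 : 0 < t := by linarith
  have hKpos : 0 < K := by linarith
  set w : ℝ := K * t with hw
  have hw0 : 0 < w := by positivity
  have hK0 : 0 ≤ supNorm f := supNorm_nonneg f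
  have hM0 : 0 ≤ maxDerivNorm f := maxDerivNorm_nonneg f
  have hβ0 : (0 : ℝ) < β := by exact_mod_cast hβ1
  have hlev := hsep
  unfold Sep at hlev
  choose! H hH01 hHlow hHhigh hHbs using hlev
  set h : Fin n → Cube n → ℝ := fun j x => if j ∈ J then H j x else 0 with hh
  set T : Fin n → Cube n → ℝ := fun j x => if j ∈ J then ramp w |discreteDeriv j f x| else 0
    with hT
  have hJ : ∀ j ∈ J, h j = H j := by intro j hj; funext x; simp [hh, hj]
  have hnJ : ∀ j, j ∉ J → h j = fun _ => 0 := by intro j hj; funext x; simp [hh, hj]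
  have hTJ : ∀ j ∈ J, T j = fun x => ramp w |discreteDeriv j f x| := by
    intro j hj; funext x; simp [hT, hj]
  have hTnJ : ∀ j, j ∉ J → T j = fun _ => 0 := by intro j hj; funext x; simp [hT, hj]
  have h01 : ∀ j x, h j x = 0 ∨ h j x = 1 := by
    intro j x
    by_cases hj : j ∈ J
    · rw [hJ j hj]; exact hH01 j hj x
    · rw [hnJ j hj]; exact Or.inl rfl
  have hbs : ∀ j, BSLe (h j) β := by
    intro j
    by_cases hj : j ∈ J
    · rw [hJ j hj]; exact hHbs j hj
    · rw [hnJ j hj]
      intro y C _ hC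
      rcases C.eq_empty_or_nonempty with rfl | ⟨A, hA⟩
      · simp
      · exact absurd rfl (hC A hA)
  set N : ℕ := ⌊2 * (d : ℝ) ^ 2 * supNorm f / t⌋₊ with hN
  have hactive : ∀ x, (univ.filter (fun j => h j x = 1)).card ≤ N := by
    intro x
    apply Nat.le_floor
    rw [le_div_iff₀ ht0]
    calc ((univ.filter (fun j => h j x = 1)).card : ℝ) * t
        = ∑ _j ∈ univ.filter (fun j => h j x = 1), t := by rw [sum_const, nsmul_eq_mul]
      _ ≤ ∑ j ∈ univ.filter (fun j => h j x = 1), |discreteDeriv j f x| := by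
          apply sum_le_sum
          intro j hj
          have hj1 := (mem_filter.1 hj).2
          by_cases hjJ : j ∈ J
          · rw [hJ j hjJ] at hj1
            exact (hHlow j hjJ x hj1).le
          · rw [hnJ j hjJ] at hj1
            norm_num at hj1
      _ ≤ ∑ j, |discreteDeriv j f x| :=
          sum_le_sum_of_subset_of_nonneg (filter_subset _ _) (fun _ _ _ => abs_nonneg _)
      _ ≤ 2 * (d : ℝ) ^ 2 * supNorm f := sum_abs_deriv_le hf (le_supNorm f) x
  have hNle : (N : ℝ) ≤ 2 * (d : ℝ) ^ 2 * supNorm f / t := Nat.floor_le (by positivity)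
  have tree := common_tree h h01 β N hbs hactive
  set τ : ℝ := 1 / w ^ 2 * (d * lam ^ 2) with hτ
  have hinf : ∀ i, ∑ j, ex (fun x => discreteDeriv i (T j) x ^ 2) ≤ τ := by
    intro i
    have hpt : ∀ j x, discreteDeriv i (T j) x ^ 2
        ≤ 1 / w ^ 2 * (discreteDeriv i (discreteDeriv j f) x) ^ 2 := by
      intro j x
      have hnn : 0 ≤ 1 / w ^ 2 * (discreteDeriv i (discreteDeriv j f) x) ^ 2 := by positivity
      by_cases hj : j ∈ J
      · rw [hTJ j hj]
        have e1 : discreteDeriv i (discreteDeriv j f) x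
            = (discreteDeriv j f (Function.update x i 1)
              - discreteDeriv j f (Function.update x i (-1))) / 2 := rfl
        have e0 : discreteDeriv i (fun x => ramp w |discreteDeriv j f x|) x
            = (ramp w |discreteDeriv j f (Function.update x i 1)|
              - ramp w |discreteDeriv j f (Function.update x i (-1))|) / 2 := rfl
        have h1 := ramp_lipschitz hw0 |discreteDeriv j f (Function.update x i 1)|
          |discreteDeriv j f (Function.update x i (-1))|
        have h2 := abs_abs_sub_abs_le_abs_sub (discreteDeriv j f (Function.update x i 1))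
          (discreteDeriv j f (Function.update x i (-1)))
        set a := discreteDeriv j f (Function.update x i 1)
        set b := discreteDeriv j f (Function.update x i (-1))
        rw [e0, e1]
        have h3 : abs (ramp w (abs a) - ramp w (abs b)) ≤ abs (a - b) / w :=
          h1.trans (div_le_div_of_nonneg_right h2 (by positivity))
        have h4 : (ramp w |a| - ramp w |b|) ^ 2 ≤ (|a - b| / w) ^ 2 := by
          rw [← sq_abs (ramp w |a| - ramp w |b|)]
          exact pow_le_pow_left₀ (abs_nonneg _) h3 2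
        have h5 : (|a - b| / w) ^ 2 = (a - b) ^ 2 / w ^ 2 := by
          rw [div_pow, sq_abs]
        calc ((ramp w |a| - ramp w |b|) / 2) ^ 2 = (ramp w |a| - ramp w |b|) ^ 2 / 4 := by ring
          _ ≤ ((a - b) ^ 2 / w ^ 2) / 4 := by rw [← h5]; linarith
          _ = _ := by ring
      · rw [hTnJ j hj]
        have e0 : discreteDeriv i (fun _ : Cube n => (0 : ℝ)) x = 0 := by
          unfold discreteDeriv; simp
        rw [e0]; simpa using hnn
    calc ∑ j, ex (fun x => discreteDeriv i (T j) x ^ 2)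
        ≤ ∑ j, 1 / w ^ 2 * ex (fun x => (discreteDeriv i (discreteDeriv j f) x) ^ 2) := by
          apply sum_le_sum
          intro j _
          rw [← ex_const_mul]
          exact ex_mono (hpt j)
      _ = 1 / w ^ 2 * ∑ j, ex (fun x => (discreteDeriv i (discreteDeriv j f) x) ^ 2) := by
          rw [mul_sum]
      _ ≤ 1 / w ^ 2 * (d * maxDerivNorm f ^ 2) :=
          mul_le_mul_of_nonneg_left (sum_second_le hf i) (by positivity)
      _ ≤ 1 / w ^ 2 * (d * lam ^ 2) := by
          apply mul_le_mul_of_nonneg_left _ (by positivity)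
          apply mul_le_mul_of_nonneg_left _ (by positivity)
          exact pow_le_pow_left₀ hM0 hM 2
  set θ : ℝ := 3 / (8 * K ^ 2 * β) with hθ
  have hθ0 : 0 < θ := by positivity
  have hos := l2_osss tree τ θ T (by positivity) hθ0 hinf
  -- expectations of the level functions
  have hex0 : ∀ j, 0 ≤ ex (h j) := fun j => ex_nonneg (fun x => by
    rcases h01 j x with e | e <;> simp [e])
  have hsmall : ∀ j, ex (h j) ≤ 1 / 4 := by
    intro j
    by_cases hj : j ∈ J
    · have h1 : ex (h j) ≤ ex (fun x => 1 / t ^ 2 * discreteDeriv j f x ^ 2) := by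
        apply ex_mono
        intro x
        rw [hJ j hj]
        rcases hH01 j hj x with e | e
        · rw [e]; positivity
        · rw [e]
          have h2 := hHlow j hj x e
          have h3 : t ^ 2 ≤ discreteDeriv j f x ^ 2 := by
            rw [← sq_abs (discreteDeriv j f x)]
            exact pow_le_pow_left₀ ht0.le h2.le 2
          rw [one_div, ← div_eq_inv_mul, le_div_iff₀ (by positivity)]
          linarith
      rw [ex_const_mul, ← derivNorm_sq] at h1
      have h4 : derivNorm j f ^ 2 ≤ lam ^ 2 :=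
        pow_le_pow_left₀ (derivNorm_nonneg f j) ((derivNorm_le f j).trans hM) 2
      have h5 : (2 * lam) ^ 2 ≤ t ^ 2 := pow_le_pow_left₀ (by positivity) ht 2
      calc ex (h j) ≤ 1 / t ^ 2 * derivNorm j f ^ 2 := h1
        _ ≤ 1 / t ^ 2 * (t ^ 2 / 4) := by
            apply mul_le_mul_of_nonneg_left _ (by positivity)
            nlinarith
        _ = 1 / 4 := by field_simp
    · rw [hnJ j hj, ex_const]; norm_num
  have hexT0 : ∀ j, 0 ≤ ex (T j) := by
    intro j
    by_cases hj : j ∈ J
    · rw [hTJ j hj]; exact ex_nonneg (fun x => ramp_nonneg _ _)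
    · rw [hTnJ j hj]; rw [ex_const]
  have hcov : ∀ j, 3 / 4 * ex (T j) ≤ cov (fun x => h j x) (T j) := by
    intro j
    unfold cov
    have e : (fun x => h j x * T j x) = T j := by
      funext x
      by_cases hj : j ∈ J
      · rw [hJ j hj, hTJ j hj]
        simp only
        by_cases hx : w < |discreteDeriv j f x|
        · rw [hHhigh j hj x hx, one_mul]
        · rw [ramp_of_le hw0 (not_lt.1 hx), mul_zero]
      · rw [hTnJ j hj]; simp
    rw [e]
    have h1 := hsmall j
    have h2 := hexT0 j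
    nlinarith
  have hA4 : 3 / 4 * ∑ j ∈ J, ex (fun x => if 2 * K * t < |discreteDeriv j f x| then (1 : ℝ) else 0)
      ≤ ∑ j, cov (fun x => h j x) (T j) := by
    rw [mul_sum]
    calc _ ≤ ∑ j ∈ J, 3 / 4 * ex (T j) := by
          apply sum_le_sum
          intro j hj
          apply mul_le_mul_of_nonneg_left _ (by norm_num)
          apply ex_mono
          intro x
          rw [hTJ j hj]
          simp only
          split_ifs with hx
          · rw [ramp_of_ge hw0 (by rw [hw]; linarith)]
          · exact ramp_nonneg _ _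
      _ ≤ ∑ j, 3 / 4 * ex (T j) := by
          apply sum_le_sum_of_subset_of_nonneg (subset_univ _)
          intro j _ _
          have := hexT0 j
          positivity
      _ ≤ _ := sum_le_sum (fun j _ => hcov j)
  have htinf : ∑ j, tinf (fun x => h j x)
      ≤ β / 2 * ∑ j ∈ J, ex (fun x => if t < |discreteDeriv j f x| then (1 : ℝ) else 0) := by
    have h1 : ∑ j, tinf (fun x => h j x) = ∑ j ∈ J, tinf (h j) := by
      symm
      apply sum_subset (subset_univ J)
      intro j _ hj
      rw [hnJ j hj]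
      unfold tinf
      apply sum_eq_zero
      intro l _
      have : (fun x => discreteDeriv l (fun _ : Cube n => (0 : ℝ)) x ^ 2) = fun _ => 0 := by
        funext x; unfold discreteDeriv; simp
      rw [this, ex_const]
    rw [h1, mul_sum]
    apply sum_le_sum
    intro j hj
    refine (tinf_le (h01 j) (hbs j)).trans ?_
    apply mul_le_mul_of_nonneg_left _ (by positivity)
    apply ex_mono
    intro x
    rw [hJ j hj]
    rcases hH01 j hj x with e | e
    · rw [e]; split_ifs <;> norm_num
    · rw [e, if_pos (hHlow j hj x e)]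
  set A4 := ∑ j ∈ J, ex (fun x => if 2 * K * t < |discreteDeriv j f x| then (1 : ℝ) else 0)
  set A1 := ∑ j ∈ J, ex (fun x => if t < |discreteDeriv j f x| then (1 : ℝ) else 0)
  have hmain : 3 / 4 * A4 ≤ θ / 2 * (β / 2 * A1) + ((2 * β ^ 3 * N : ℕ) : ℝ) * τ / (2 * θ) := by
    refine (hA4.trans hos).trans ?_
    have := mul_le_mul_of_nonneg_left htinf (by positivity : 0 ≤ θ / 2)
    linarith
  have e1 : θ / 2 * (β / 2 * A1) = 3 / (32 * K ^ 2) * A1 := by
    rw [hθ]; field_simp; ring
  have e2 : ((2 * β ^ 3 * N : ℕ) : ℝ) * τ / (2 * θ)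
      = (8 / 3) * ((β : ℝ) ^ 4 * d * lam ^ 2 / t ^ 2) * N := by
    rw [hθ, hτ, hw]; push_cast; field_simp
  have e3 : (8 / 3) * ((β : ℝ) ^ 4 * d * lam ^ 2 / t ^ 2) * N
      ≤ (8 / 3) * ((β : ℝ) ^ 4 * d * lam ^ 2 / t ^ 2) * (2 * (d : ℝ) ^ 2 * supNorm f / t) :=
    mul_le_mul_of_nonneg_left hNle (by positivity)
  rw [e1, e2] at hmain
  have e4 : 3 / 4 * A4 ≤ 3 / (32 * K ^ 2) * A1
      + (8 / 3) * ((β : ℝ) ^ 4 * d * lam ^ 2 / t ^ 2) * (2 * (d : ℝ) ^ 2 * supNorm f / t) := by
    linarith
  have e5 := mul_le_mul_of_nonneg_left e4 (by positivity : 0 ≤ 16 / 3 * K ^ 2 * t ^ 2)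
  calc (2 * K * t) ^ 2 * A4 = 16 / 3 * K ^ 2 * t ^ 2 * (3 / 4 * A4) := by ring
    _ ≤ _ := e5
    _ = _ := by field_simp; ring

end Pool.Agent.Helper24.FewDer
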